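import Mathlib

open scoped BigOperators

namespace Pool.Agent.X83.GI

/-- The Gaussian integers. -/
abbrev G : Type := GaussianInt

/-- The norm as a natural number. -/
def nm (z : G) : ℕ := z.norm.natAbs

theorem nm_cast (z : G) : (nm z : ℤ) = z.re ^ 2 + z.im ^ 2 := by
  unfold nm
  rw [GaussianInt.abs_natCast_norm, Zsqrtd.norm_def]; ring

theorem nm_mul (z w : G) : nm (z * w) = nm z * nm w := by
  unfold nm; rw [Zsqrtd.norm_mul, Int.natAbs_mul]

theorem nm_one : nm 1 = 1 := by simp [nm]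

theorem nm_pow (z : G) (a : ℕ) : nm (z ^ a) = nm z ^ a := by
  induction a with
  | zero => simp [nm_one]
  | succ a ih => rw [pow_succ, nm_mul, ih, pow_succ]

theorem nm_eq_zero {z : G} : nm z = 0 ↔ z = 0 := by
  unfold nm; rw [Int.natAbs_eq_zero, GaussianInt.norm_eq_zero]

theorem nm_pos {z : G} (h : z ≠ 0) : 0 < nm z := Nat.pos_of_ne_zero fun h0 => h (nm_eq_zero.1 h0)

theorem nm_dvd {w z : G} (h : w ∣ z) : nm w ∣ nm z := by
  obtain ⟨c, rfl⟩ := h
  rw [nm_mul]; exact Dvd.intro _ rfl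

theorem nm_le_of_dvd {w z : G} (h : w ∣ z) (hz : z ≠ 0) : nm w ≤ nm z :=
  Nat.le_of_dvd (nm_pos hz) (nm_dvd h)

theorem nm_unit {u : G} (h : IsUnit u) : nm u = 1 := by
  obtain ⟨v, hv⟩ := h.exists_right_inv
  have := congrArg nm hv
  rw [nm_mul, nm_one] at this
  exact Nat.eq_one_of_mul_eq_one_right this

theorem nm_prime {p : G} (h : Prime p) : 2 ≤ nm p := by
  have h0 : nm p ≠ 0 := fun h0 => h.ne_zero (nm_eq_zero.1 h0)
  have h1 : nm p ≠ 1 := by
    intro h1
    apply h.not_unit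
    have : p * star p = 1 := by
      have e : ((p.norm : ℤ) : G) = p * star p := Zsqrtd.norm_eq_mul_conj p
      rw [← e]
      have h2 : p.norm = 1 := by
        have := GaussianInt.abs_natCast_norm p
        unfold nm at h1
        rw [h1] at this
        exact_mod_cast this.symm
      rw [h2]; simp
    exact IsUnit.of_mul_eq_one _ this
  omega

/-- A box with integer corner `(a, b)` and side `K`. -/
noncomputable def bx (a b : ℤ) (K : ℕ) : Finset G :=
  (Finset.Ico a (a + K) ×ˢ Finset.Ico b (b + K)).image fun p => (⟨p.1, p.2⟩ : G)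

theorem mem_bx {a b : ℤ} {K : ℕ} {z : G} :
    z ∈ bx a b K ↔ a ≤ z.re ∧ z.re < a + K ∧ b ≤ z.im ∧ z.im < b + K := by
  unfold bx
  rw [Finset.mem_image]
  constructor
  · rintro ⟨p, hp, rfl⟩
    rw [Finset.mem_product, Finset.mem_Ico, Finset.mem_Ico] at hp
    exact ⟨hp.1.1, hp.1.2, hp.2.1, hp.2.2⟩
  · rintro ⟨h1, h2, h3, h4⟩
    refine ⟨(z.re, z.im), ?_, rfl⟩
    rw [Finset.mem_product, Finset.mem_Ico, Finset.mem_Ico]
    exact ⟨⟨h1, h2⟩, h3, h4⟩

theorem card_bx (a b : ℤ) (K : ℕ) : (bx a b K).card = K ^ 2 := by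
  unfold bx
  rw [Finset.card_image_of_injective, Finset.card_product, Int.card_Ico, Int.card_Ico]
  · simp [pow_two]
  · rintro ⟨x, y⟩ ⟨x', y'⟩ h
    have h1 := congrArg Zsqrtd.re h
    have h2 := congrArg Zsqrtd.im h
    exact Prod.ext h1 h2

theorem bx_mono {a b a' b' : ℤ} {K K' : ℕ} (h1 : a' ≤ a) (h2 : b' ≤ b)
    (h3 : a + K ≤ a' + K') (h4 : b + K ≤ b' + K') : bx a b K ⊆ bx a' b' K' := by
  intro z hz
  rw [mem_bx] at hz ⊢
  omega

/-- Small representatives of the residues modulo `w`. -/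
noncomputable def rep (w : G) (c : G ⧸ Ideal.span {w}) : G := (Quotient.out c) % w

theorem mk_rep (w : G) (c : G ⧸ Ideal.span {w}) :
    Ideal.Quotient.mk (Ideal.span {w}) (rep w c) = c := by
  have h1 : Ideal.Quotient.mk (Ideal.span {w}) (Quotient.out c) = c := Quotient.out_eq c
  conv_rhs => rw [← h1]
  rw [Ideal.Quotient.eq, Ideal.mem_span_singleton]
  unfold rep
  rw [GaussianInt.mod_def]
  refine ⟨-(Quotient.out c / w), ?_⟩
  ring

theorem nm_rep (w : G) (hw : w ≠ 0) (c : G ⧸ Ideal.span {w}) : nm (rep w c) < nm w := by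
  unfold rep nm
  exact GaussianInt.natAbs_norm_mod_lt _ hw

theorem rep_injective (w : G) : Function.Injective (rep w) := by
  intro c d h
  rw [← mk_rep w c, ← mk_rep w d, h]

theorem coord_le {z : G} {m : ℕ} (h : nm z ≤ m) :
    -(Nat.sqrt m : ℤ) ≤ z.re ∧ z.re ≤ Nat.sqrt m ∧ -(Nat.sqrt m : ℤ) ≤ z.im ∧
      z.im ≤ Nat.sqrt m := by
  have h1 : z.re ^ 2 + z.im ^ 2 ≤ (m : ℤ) := by rw [← nm_cast]; exact_mod_cast h
  have hre : z.re.natAbs ≤ Nat.sqrt m := by
    rw [Nat.le_sqrt]
    have : ((z.re.natAbs * z.re.natAbs : ℕ) : ℤ) ≤ m := by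
      push_cast
      rw [abs_mul_abs_self]
      nlinarith [sq_nonneg z.im]
    exact_mod_cast this
  have him : z.im.natAbs ≤ Nat.sqrt m := by
    rw [Nat.le_sqrt]
    have : ((z.im.natAbs * z.im.natAbs : ℕ) : ℤ) ≤ m := by
      push_cast
      rw [abs_mul_abs_self]
      nlinarith [sq_nonneg z.re]
    exact_mod_cast this
  omega

/-- Elements of norm at most `X`. -/
noncomputable def ball (X : ℕ) : Finset G :=
  (bx (-(Nat.sqrt X : ℤ)) (-(Nat.sqrt X : ℤ)) (2 * Nat.sqrt X + 1)).filter fun z => nm z ≤ X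

theorem mem_ball {X : ℕ} {z : G} : z ∈ ball X ↔ nm z ≤ X := by
  unfold ball
  rw [Finset.mem_filter, mem_bx]
  constructor
  · exact fun h => h.2
  · intro h
    refine ⟨?_, h⟩
    have := coord_le h
    push_cast
    omega

instance finite_quot (w : G) [hw : Fact (w ≠ 0)] : Finite (G ⧸ Ideal.span {w}) := by
  refine Finite.of_injective (β := ball (nm w)) (fun c => ⟨rep w c, ?_⟩) ?_
  · exact mem_ball.2 (nm_rep w hw.out c).le
  · intro c d h
    exact rep_injective w (congrArg Subtype.val h)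

/-- Number of residues. -/
noncomputable def rr (w : G) : ℕ := Nat.card (G ⧸ Ideal.span {w})

/-- Number of multiples of `w` in `B`. -/
noncomputable def cnt (w : G) (B : Finset G) : ℕ := by
  classical exact (B.filter fun z => w ∣ z).card

theorem cnt_mono (w : G) {B B' : Finset G} (h : B ⊆ B') : cnt w B ≤ cnt w B' := by
  classical
  unfold cnt
  exact Finset.card_le_card (Finset.filter_subset_filter _ h)

theorem upper (w : G) (hw : w ≠ 0) (a b : ℤ) (K : ℕ) :
    rr w * cnt w (bx a b K) ≤ (K + 2 * Nat.sqrt (nm w)) ^ 2 := by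
  classical
  haveI : Fact (w ≠ 0) := ⟨hw⟩
  haveI : Fintype (G ⧸ Ideal.span {w}) := Fintype.ofFinite _
  set s := Nat.sqrt (nm w) with hs
  rw [← card_bx (a - s) (b - s) (K + 2 * s)]
  unfold rr cnt
  rw [Nat.card_eq_fintype_card, ← Finset.card_univ, ← Finset.card_product]
  apply Finset.card_le_card_of_injOn
    (fun x : (G ⧸ Ideal.span {w}) × G => x.2 + rep w x.1)
  · rintro ⟨c, z⟩ hx
    rw [Finset.mem_coe, Finset.mem_product, Finset.mem_filter, mem_bx] at hx
    rw [Finset.mem_coe, mem_bx]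
    have h1 := coord_le (nm_rep w hw c).le
    rw [← hs] at h1
    simp only [Zsqrtd.re_add, Zsqrtd.im_add]
    push_cast
    have h2 := hx.2.1
    dsimp only at h2
    omega
  · rintro ⟨c, z⟩ hx ⟨d, y⟩ hy h
    rw [Finset.mem_coe, Finset.mem_product, Finset.mem_filter] at hx hy
    have h1 := congrArg (Ideal.Quotient.mk (Ideal.span {w})) h
    simp only [map_add, mk_rep] at h1
    have hz : Ideal.Quotient.mk (Ideal.span {w}) z = 0 := by
      rw [Ideal.Quotient.eq_zero_iff_mem, Ideal.mem_span_singleton]; exact hx.2.2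
    have hy' : Ideal.Quotient.mk (Ideal.span {w}) y = 0 := by
      rw [Ideal.Quotient.eq_zero_iff_mem, Ideal.mem_span_singleton]; exact hy.2.2
    rw [hz, hy', zero_add, zero_add] at h1
    subst h1
    have h2 : z = y := by
      have h3 : z + rep w c = y + rep w c := h
      exact add_right_cancel h3
    rw [h2]

theorem lower (w : G) (hw : w ≠ 0) (a b : ℤ) (K : ℕ) (hK : 2 * Nat.sqrt (nm w) ≤ K) :
    (K - 2 * Nat.sqrt (nm w)) ^ 2 ≤ rr w * cnt w (bx a b K) := by
  classical
  haveI : Fact (w ≠ 0) := ⟨hw⟩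
  haveI : Fintype (G ⧸ Ideal.span {w}) := Fintype.ofFinite _
  set s := Nat.sqrt (nm w) with hs
  rw [← card_bx (a + s) (b + s) (K - 2 * s)]
  unfold rr cnt
  rw [Nat.card_eq_fintype_card, ← Finset.card_univ, ← Finset.card_product]
  apply Finset.card_le_card_of_injOn
    (fun z : G => (Ideal.Quotient.mk (Ideal.span {w}) z,
      z - rep w (Ideal.Quotient.mk (Ideal.span {w}) z)))
  · intro z hz
    rw [Finset.mem_coe, mem_bx] at hz
    rw [Finset.mem_coe, Finset.mem_product, Finset.mem_filter, mem_bx]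
    have h1 := coord_le (nm_rep w hw (Ideal.Quotient.mk (Ideal.span {w}) z)).le
    rw [← hs] at h1
    refine ⟨Finset.mem_univ _, ?_, ?_⟩
    · simp only [Zsqrtd.re_sub, Zsqrtd.im_sub]
      rw [Nat.cast_sub hK] at hz
      push_cast at hz
      omega
    · rw [← Ideal.mem_span_singleton, ← Ideal.Quotient.eq_zero_iff_mem, map_sub, mk_rep, sub_self]
  · intro z _ y _ h
    have h1 := congrArg Prod.fst h
    have h2 := congrArg Prod.snd h
    dsimp only at h1 h2
    rw [h1] at h2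
    exact sub_left_injective h2

theorem rr_lower (w : G) (hw : w ≠ 0) : nm w ≤ 2 * rr w := by
  classical
  haveI : Fact (w ≠ 0) := ⟨hw⟩
  haveI : Fintype (G ⧸ Ideal.span {w}) := Fintype.ofFinite _
  have hpos := nm_pos hw
  set t := Nat.sqrt ((nm w - 1) / 2) + 1 with ht
  have h1 : t ^ 2 ≤ rr w := by
    rw [← card_bx 0 0 t]
    unfold rr
    rw [Nat.card_eq_fintype_card, ← Finset.card_univ]
    apply Finset.card_le_card_of_injOn (fun z : G => Ideal.Quotient.mk (Ideal.span {w}) z)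
    · intro z _; exact Finset.mem_coe.2 (Finset.mem_univ _)
    · intro z hz y hy h
      rw [Finset.mem_coe, mem_bx] at hz hy
      rw [Ideal.Quotient.eq, Ideal.mem_span_singleton] at h
      by_contra hne
      have h2 := nm_le_of_dvd h (sub_ne_zero.2 hne)
      have h3 : (nm (z - y) : ℤ) = (z.re - y.re) ^ 2 + (z.im - y.im) ^ 2 := by
        rw [nm_cast]; simp
      have h4 : (z.re - y.re) ^ 2 ≤ ((t : ℤ) - 1) ^ 2 := by
        apply sq_le_sq'
        · omega
        · omega
      have h5 : (z.im - y.im) ^ 2 ≤ ((t : ℤ) - 1) ^ 2 := by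
        apply sq_le_sq'
        · omega
        · omega
      have h6 : (nm w : ℤ) ≤ 2 * ((t : ℤ) - 1) ^ 2 := by
        have : (nm w : ℤ) ≤ nm (z - y) := by exact_mod_cast h2
        linarith
      have h7 : ((t : ℤ) - 1) = (Nat.sqrt ((nm w - 1) / 2) : ℤ) := by rw [ht]; push_cast; ring
      have h8 : Nat.sqrt ((nm w - 1) / 2) * Nat.sqrt ((nm w - 1) / 2) ≤ (nm w - 1) / 2 :=
        Nat.sqrt_le _
      have h9 : (nm w : ℤ) ≤ 2 * ((Nat.sqrt ((nm w - 1) / 2) * Nat.sqrt ((nm w - 1) / 2) : ℕ) : ℤ) := by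
        rw [h7] at h6
        push_cast
        linarith
      have h10 : nm w ≤ 2 * (Nat.sqrt ((nm w - 1) / 2) * Nat.sqrt ((nm w - 1) / 2)) := by
        exact_mod_cast h9
      omega
  have h2 : (nm w - 1) / 2 < t * t := by
    have := Nat.lt_succ_sqrt ((nm w - 1) / 2)
    exact this
  rw [pow_two] at h1
  omega

end Pool.Agent.X83.GI
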