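import Pool.Agent.X83.GI.A

open scoped BigOperators

namespace Pool.Agent.X83.GI

/-- A normalization of the Gaussian integers. -/
@[instance_reducible]
noncomputable def normG : StrongNormalizationMonoid G :=
  UniqueFactorizationMonoid.normalizationMonoid

attribute [local instance] normG

/-- Normalized prime factors. -/
noncomputable def nf (n : G) : Multiset G := UniqueFactorizationMonoid.normalizedFactors n

/-- Normalized primes. -/
def NP (p : G) : Prop := Prime p ∧ normalize p = p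

theorem mem_nf {n p : G} (hn : n ≠ 0) : p ∈ nf n ↔ NP p ∧ p ∣ n := by
  unfold nf NP
  rw [UniqueFactorizationMonoid.mem_normalizedFactors_iff' hn,
    UniqueFactorizationMonoid.irreducible_iff_prime, and_assoc]

theorem nm_associated {a b : G} (h : Associated a b) : nm a = nm b := by
  obtain ⟨u, rfl⟩ := h
  rw [nm_mul, nm_unit u.isUnit, mul_one]

theorem nm_multiset_prod (m : Multiset G) : nm m.prod = (m.map nm).prod := by
  induction m using Multiset.induction_on with
  | empty => simp [nm_one]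
  | cons a m ih => rw [Multiset.prod_cons, nm_mul, ih, Multiset.map_cons, Multiset.prod_cons]

theorem nm_nf {n : G} (hn : n ≠ 0) : ((nf n).map nm).prod = nm n := by
  rw [← nm_multiset_prod]
  exact nm_associated (UniqueFactorizationMonoid.prod_normalizedFactors hn)

theorem log_map_prod (m : Multiset G) (h : ∀ p ∈ m, nm p ≠ 0) :
    Real.log (((m.map nm).prod : ℕ) : ℝ) = (m.map fun p => Real.log (nm p)).sum := by
  induction m using Multiset.induction_on with
  | empty => simp
  | cons a m ih =>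
    rw [Multiset.map_cons, Multiset.prod_cons, Multiset.map_cons, Multiset.sum_cons, Nat.cast_mul,
      Real.log_mul, ih fun p hp => h p (Multiset.mem_cons_of_mem hp)]
    · exact_mod_cast h a (Multiset.mem_cons_self a m)
    · have : (m.map nm).prod ≠ 0 := by
        rw [Ne, Multiset.prod_eq_zero_iff, Multiset.mem_map]
        rintro ⟨p, hp, h0⟩
        exact h p (Multiset.mem_cons_of_mem hp) h0
      exact_mod_cast this

theorem log_nm {n : G} (hn : n ≠ 0) :
    Real.log (nm n) = ∑ p ∈ (nf n).toFinset, (nf n).count p * Real.log (nm p) := by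
  rw [← nm_nf hn, log_map_prod, Finset.sum_multiset_map_count]
  · simp only [nsmul_eq_mul]
  · intro p hp
    have := nm_prime ((mem_nf hn).1 hp).1.1
    omega

theorem pow_dvd_iff {n p : G} (hn : n ≠ 0) (hp : NP p) (a : ℕ) :
    p ^ a ∣ n ↔ a ≤ (nf n).count p := by
  have h1 : (a : ℕ∞) ≤ emultiplicity p n ↔ Multiset.replicate a (normalize p) ≤ nf n :=
    UniqueFactorizationMonoid.le_emultiplicity_iff_replicate_le_normalizedFactors
      hp.1.irreducible hn
  rw [pow_dvd_iff_le_emultiplicity, h1, hp.2, Multiset.le_count_iff_replicate_le]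

/-- A rational prime divisible by the Gaussian prime. -/
theorem exists_below {p : G} (hp : Prime p) : ∃ q : ℕ, q.Prime ∧ p ∣ (q : G) ∧ q ≤ nm p ∧
    (nm p ∣ q ^ 2) := by
  have h1 : p ∣ ((nm p : ℕ) : G) := by
    have e : ((p.norm : ℤ) : G) = p * star p := Zsqrtd.norm_eq_mul_conj p
    have e2 : ((nm p : ℕ) : G) = ((p.norm : ℤ) : G) := GaussianInt.natCast_natAbs_norm p
    rw [e2, e]
    exact Dvd.intro _ rfl
  have key : ∀ m : ℕ, m ≠ 0 → p ∣ (m : G) → ∃ q : ℕ, q.Prime ∧ p ∣ (q : G) ∧ q ∣ m := by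
    intro m
    induction m using Nat.strong_induction_on with
    | _ m ih =>
      intro hm hd
      by_cases h1 : m = 1
      · rw [h1, Nat.cast_one] at hd
        exact absurd (isUnit_of_dvd_one hd) hp.not_unit
      · have hq := Nat.minFac_prime h1
        obtain ⟨c, hc⟩ := Nat.minFac_dvd m
        have hc0 : c ≠ 0 := by rintro rfl; simp at hc; exact hm hc
        have hd2 : p ∣ (m.minFac : G) * (c : G) := by
          rw [← Nat.cast_mul, ← hc]; exact hd
        rcases hp.dvd_or_dvd hd2 with h | h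
        · exact ⟨m.minFac, hq, h, Nat.minFac_dvd m⟩
        · have hlt : c < m := by
            rw [hc]
            have := hq.two_le
            nlinarith [Nat.pos_of_ne_zero hc0]
          obtain ⟨q, h3, h4, h5⟩ := ih c hlt hc0 h
          exact ⟨q, h3, h4, h5.trans (Dvd.intro_left _ hc.symm)⟩
  have hne : nm p ≠ 0 := by have := nm_prime hp; omega
  obtain ⟨q, hq, hpq, hqd⟩ := key (nm p) hne h1
  refine ⟨q, hq, hpq, Nat.le_of_dvd (Nat.pos_of_ne_zero hne) hqd, ?_⟩
  have h2 := nm_dvd hpq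
  have h3 : nm (q : G) = q ^ 2 := by
    have : (nm (q : G) : ℤ) = (q : ℤ) ^ 2 := by
      rw [nm_cast]; simp
    exact_mod_cast this
  rwa [h3] at h2

/-- The rational prime below. -/
noncomputable def bel (p : G) : ℕ := by
  classical exact if h : Prime p then (exists_below h).choose else 0

theorem bel_spec {p : G} (h : Prime p) : (bel p).Prime ∧ p ∣ (bel p : G) ∧ bel p ≤ nm p ∧
    nm p ∣ bel p ^ 2 := by
  unfold bel
  rw [dif_pos h]
  exact (exists_below h).choose_spec

theorem card_fiber (q : ℕ) (hq : q.Prime) : (nf (q : G)).toFinset.card ≤ 2 := by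
  have hq0 : (q : G) ≠ 0 := by
    exact_mod_cast hq.ne_zero
  have h3 : nm (q : G) = q ^ 2 := by
    have : (nm (q : G) : ℤ) = (q : ℤ) ^ 2 := by
      rw [nm_cast]; simp
    exact_mod_cast this
  have h4 : ∀ p ∈ nf (q : G), q ≤ nm p := by
    intro p hp
    have hp' := (mem_nf hq0).1 hp
    have h5 := nm_dvd hp'.2
    rw [h3, Nat.dvd_prime_pow hq] at h5
    obtain ⟨k, hk, hk2⟩ := h5
    have h6 := nm_prime hp'.1.1
    rw [hk2]
    rcases Nat.eq_zero_or_pos k with h0 | h0
    · rw [h0, pow_zero] at hk2; omega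
    · calc q = q ^ 1 := (pow_one q).symm
        _ ≤ q ^ k := Nat.pow_le_pow_right hq.pos h0
  have h7 : q ^ (Multiset.card (nf (q : G))) ≤ ((nf (q : G)).map nm).prod := by
    rw [← Multiset.card_map nm]
    apply Multiset.pow_card_le_prod
    intro x hx
    rw [Multiset.mem_map] at hx
    obtain ⟨p, hp, rfl⟩ := hx
    exact h4 p hp
  rw [nm_nf hq0, h3] at h7
  have h8 : Multiset.card (nf (q : G)) ≤ 2 := (Nat.pow_le_pow_iff_right hq.one_lt).1 h7
  exact (Multiset.toFinset_card_le _).trans h8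

/-- Normalized primes of norm at most `X`. -/
noncomputable def PP (X : ℕ) : Finset G := by
  classical exact (ball X).filter fun p => NP p

theorem mem_PP {X : ℕ} {p : G} : p ∈ PP X ↔ nm p ≤ X ∧ NP p := by
  classical
  unfold PP
  rw [Finset.mem_filter, mem_ball]

theorem card_PP (X : ℕ) : (PP X).card ≤ 2 * Nat.primeCounting X := by
  classical
  have h1 : (PP X).card ≤ 2 * ((PP X).image bel).card := by
    apply Finset.card_le_mul_card_image
    intro q hq
    rw [Finset.mem_image] at hq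
    obtain ⟨p, hp, rfl⟩ := hq
    have hpp := mem_PP.1 hp
    have hq := bel_spec hpp.2.1
    refine le_trans (Finset.card_le_card ?_) (card_fiber (bel p) hq.1)
    intro p' hp'
    rw [Finset.mem_filter, mem_PP] at hp'
    rw [Multiset.mem_toFinset, mem_nf (by exact_mod_cast hq.1.ne_zero)]
    refine ⟨hp'.1.2, ?_⟩
    rw [← hp'.2]
    exact (bel_spec hp'.1.2.1).2.1
  refine h1.trans (Nat.mul_le_mul_left 2 ?_)
  rw [Nat.primeCounting, Nat.primeCounting', Nat.count_eq_card_filter_range]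
  apply Finset.card_le_card
  intro q hq
  rw [Finset.mem_image] at hq
  obtain ⟨p, hp, rfl⟩ := hq
  have hpp := mem_PP.1 hp
  have hq := bel_spec hpp.2.1
  rw [Finset.mem_filter, Finset.mem_range]
  exact ⟨by omega, hq.1⟩

/-- Prime powers of norm at most `X`. -/
noncomputable def QP (X : ℕ) : Finset (G × ℕ) :=
  (PP X ×ˢ Finset.Icc 1 X).filter fun x => nm x.1 ^ x.2 ≤ X

theorem mem_QP {X : ℕ} {x : G × ℕ} : x ∈ QP X ↔ NP x.1 ∧ 1 ≤ x.2 ∧ nm x.1 ^ x.2 ≤ X := by
  unfold QP
  rw [Finset.mem_filter, Finset.mem_product, mem_PP, Finset.mem_Icc]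
  constructor
  · rintro ⟨⟨⟨_, h1⟩, h2, _⟩, h3⟩
    exact ⟨h1, h2, h3⟩
  · rintro ⟨h1, h2, h3⟩
    have h4 := nm_prime h1.1
    have h5 : nm x.1 ≤ nm x.1 ^ x.2 := by
      calc nm x.1 = nm x.1 ^ 1 := (pow_one _).symm
        _ ≤ _ := Nat.pow_le_pow_right (by omega) h2
    have h6 : x.2 < nm x.1 ^ x.2 := Nat.lt_pow_self (by omega)
    exact ⟨⟨⟨by omega, h1⟩, h2, by omega⟩, h3⟩

theorem log_nm_nonneg (p : G) : 0 ≤ Real.log (nm p) := Real.log_natCast_nonneg _

/-- Sum over prime powers as a double sum. -/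
theorem sum_QP (X : ℕ) (F : G → ℕ → ℝ) :
    ∑ x ∈ QP X, F x.1 x.2 = ∑ p ∈ PP X, ∑ a ∈ (Finset.Icc 1 X).filter (fun a => nm p ^ a ≤ X),
      F p a := by
  unfold QP
  rw [Finset.sum_filter, Finset.sum_product]
  apply Finset.sum_congr rfl
  intro p _
  rw [Finset.sum_filter]

/-- First mass. -/
noncomputable def A1 (X : ℕ) : ℝ := ∑ x ∈ QP X, Real.log (nm x.1)

/-- Second mass. -/
noncomputable def A2 (X : ℕ) : ℝ :=
  ∑ x ∈ QP X, Real.log (nm x.1) / Real.sqrt ((nm x.1 ^ x.2 : ℕ) : ℝ)

theorem A1_le (X : ℕ) : A1 X ≤ (PP X).card * Real.log X := by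
  unfold A1
  rw [sum_QP X (fun p _ => Real.log (nm p)), ← nsmul_eq_mul, ← Finset.sum_const]
  apply Finset.sum_le_sum
  intro p hp
  rw [mem_PP] at hp
  have h2 := nm_prime hp.2.1
  rw [Finset.sum_const, nsmul_eq_mul]
  have hX0 : X ≠ 0 := by omega
  have h3 : ((Finset.Icc 1 X).filter (fun a => nm p ^ a ≤ X)).card ≤ Nat.log (nm p) X := by
    have : (Finset.Icc 1 X).filter (fun a => nm p ^ a ≤ X) ⊆ Finset.Icc 1 (Nat.log (nm p) X) := by
      intro a ha
      rw [Finset.mem_filter, Finset.mem_Icc] at ha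
      rw [Finset.mem_Icc]
      exact ⟨ha.1.1, Nat.le_log_of_pow_le (by omega) ha.2⟩
    have h4 := Finset.card_le_card this
    rwa [Nat.card_Icc, Nat.add_sub_cancel] at h4
  calc (((Finset.Icc 1 X).filter (fun a => nm p ^ a ≤ X)).card : ℝ) * Real.log (nm p)
      ≤ (Nat.log (nm p) X : ℝ) * Real.log (nm p) := by
        apply mul_le_mul_of_nonneg_right _ (log_nm_nonneg p)
        exact_mod_cast h3
    _ = Real.log ((nm p : ℝ) ^ (Nat.log (nm p) X)) := by rw [Real.log_pow]
    _ ≤ Real.log X := by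
        apply Real.log_le_log
        · have : (0 : ℝ) < nm p := by exact_mod_cast (by omega : 0 < nm p)
          positivity
        · exact_mod_cast Nat.pow_log_le_self (nm p) hX0

theorem A1_nonneg (X : ℕ) : 0 ≤ A1 X := Finset.sum_nonneg fun x _ => log_nm_nonneg x.1

theorem QP_mono {X Y : ℕ} (h : X ≤ Y) : QP X ⊆ QP Y := by
  intro x hx
  rw [mem_QP] at hx ⊢
  exact ⟨hx.1, hx.2.1, hx.2.2.trans h⟩

theorem A2_step (X : ℕ) (hX : 0 < X) : A2 X ≤ A2 (X / 4) + 2 / Real.sqrt X * A1 X := by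
  classical
  have hsub : QP (X / 4) ⊆ QP X := QP_mono (Nat.div_le_self X 4)
  have hX' : (0 : ℝ) < X := by exact_mod_cast hX
  have hs : 0 < Real.sqrt X := Real.sqrt_pos.2 hX'
  have h1 : A2 X = ∑ x ∈ QP X \ QP (X / 4),
      Real.log (nm x.1) / Real.sqrt ((nm x.1 ^ x.2 : ℕ) : ℝ) + A2 (X / 4) := by
    unfold A2
    rw [Finset.sum_sdiff hsub]
  rw [h1, add_comm]
  apply add_le_add_right
  calc ∑ x ∈ QP X \ QP (X / 4), Real.log (nm x.1) / Real.sqrt ((nm x.1 ^ x.2 : ℕ) : ℝ)
      ≤ ∑ x ∈ QP X \ QP (X / 4), 2 / Real.sqrt X * Real.log (nm x.1) := by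
        apply Finset.sum_le_sum
        intro x hx
        rw [Finset.mem_sdiff, mem_QP, mem_QP] at hx
        have h2 : X / 4 < nm x.1 ^ x.2 := by
          by_contra h3
          exact hx.2 ⟨hx.1.1, hx.1.2.1, not_lt.1 h3⟩
        have h4 : (X : ℝ) ≤ 4 * ((nm x.1 ^ x.2 : ℕ) : ℝ) := by
          have : X ≤ 4 * (nm x.1 ^ x.2) := by omega
          exact_mod_cast this
        have h5 : Real.sqrt X ≤ 2 * Real.sqrt ((nm x.1 ^ x.2 : ℕ) : ℝ) := by
          have e : (2 : ℝ) * Real.sqrt ((nm x.1 ^ x.2 : ℕ) : ℝ)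
              = Real.sqrt (4 * ((nm x.1 ^ x.2 : ℕ) : ℝ)) := by
            rw [Real.sqrt_mul (by norm_num), show (4 : ℝ) = 2 ^ 2 by norm_num,
              Real.sqrt_sq (by norm_num)]
          rw [e]
          exact Real.sqrt_le_sqrt h4
        have h6 : 0 < Real.sqrt ((nm x.1 ^ x.2 : ℕ) : ℝ) := by
          by_contra h7
          have : Real.sqrt ((nm x.1 ^ x.2 : ℕ) : ℝ) ≤ 0 := not_lt.1 h7
          linarith
        rw [div_le_iff₀ h6]
        have h8 : 1 ≤ 2 / Real.sqrt X * Real.sqrt ((nm x.1 ^ x.2 : ℕ) : ℝ) := by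
          rw [div_mul_eq_mul_div, le_div_iff₀ hs, one_mul]
          exact h5
        calc Real.log (nm x.1) = Real.log (nm x.1) * 1 := (mul_one _).symm
          _ ≤ Real.log (nm x.1) * (2 / Real.sqrt X * Real.sqrt ((nm x.1 ^ x.2 : ℕ) : ℝ)) :=
              mul_le_mul_of_nonneg_left h8 (log_nm_nonneg _)
          _ = _ := by ring
    _ = 2 / Real.sqrt X * ∑ x ∈ QP X \ QP (X / 4), Real.log (nm x.1) := by
        rw [Finset.mul_sum]
    _ ≤ 2 / Real.sqrt X * A1 X := by
        apply mul_le_mul_of_nonneg_left _ (by positivity)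
        unfold A1
        exact Finset.sum_le_sum_of_subset_of_nonneg Finset.sdiff_subset
          fun x _ _ => log_nm_nonneg x.1

theorem A2_le {C : ℝ} (hC : ∀ X : ℕ, A1 X ≤ C * X) (X : ℕ) : A2 X ≤ 4 * C * Real.sqrt X := by
  have hC0 : 0 ≤ C := by
    have := (A1_nonneg 1).trans (hC 1)
    simpa using this
  induction X using Nat.strong_induction_on with
  | _ X ih =>
    rcases Nat.eq_zero_or_pos X with h0 | h0
    · have h1 : QP 0 = ∅ := by
        rw [Finset.eq_empty_iff_forall_notMem]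
        intro x hx
        rw [mem_QP] at hx
        have h2 := nm_prime hx.1.1
        have h3 : 0 < nm x.1 ^ x.2 := Nat.pow_pos (by omega)
        omega
      rw [h0]
      unfold A2
      rw [h1]; simp
    · have h1 := A2_step X h0
      have h2 := ih (X / 4) (Nat.div_lt_self h0 (by norm_num))
      have hX' : (0 : ℝ) < X := by exact_mod_cast h0
      have hs : 0 < Real.sqrt X := Real.sqrt_pos.2 hX'
      have h3 : Real.sqrt ((X / 4 : ℕ) : ℝ) ≤ Real.sqrt X / 2 := by
        have e : Real.sqrt X / 2 = Real.sqrt ((X : ℝ) / 4) := by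
          rw [Real.sqrt_div' _ (by norm_num), show (4 : ℝ) = 2 ^ 2 by norm_num,
            Real.sqrt_sq (by norm_num)]
        rw [e]
        apply Real.sqrt_le_sqrt
        exact_mod_cast Nat.cast_div_le (α := ℝ) (m := X) (n := 4)
      have h4 : 2 / Real.sqrt X * A1 X ≤ 2 * C * Real.sqrt X := by
        calc 2 / Real.sqrt X * A1 X ≤ 2 / Real.sqrt X * (C * X) :=
              mul_le_mul_of_nonneg_left (hC X) (by positivity)
          _ = 2 * C * (X / Real.sqrt X) := by ring
          _ = 2 * C * Real.sqrt X := by rw [Real.div_sqrt]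
      have h5 : 4 * C * Real.sqrt ((X / 4 : ℕ) : ℝ) ≤ 4 * C * (Real.sqrt X / 2) :=
        mul_le_mul_of_nonneg_left h3 (by positivity)
      calc A2 X ≤ _ := h1
        _ ≤ 4 * C * (Real.sqrt X / 2) + 2 * C * Real.sqrt X := add_le_add (h2.trans h5) h4
        _ = _ := by ring

/-- The part of the logarithm of the norm due to small prime powers. -/
noncomputable def WW (X : ℕ) (n : G) : ℝ := by
  classical exact ∑ x ∈ QP X, if x.1 ^ x.2 ∣ n then Real.log (nm x.1) else 0

theorem WW_le (X : ℕ) {n : G} (hn : n ≠ 0) : WW X n ≤ Real.log (nm n) := by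
  classical
  unfold WW
  rw [sum_QP X (fun p a => if p ^ a ∣ n then Real.log (nm p) else 0), log_nm hn]
  have h1 : ∀ p ∈ PP X, ∑ a ∈ (Finset.Icc 1 X).filter (fun a => nm p ^ a ≤ X),
      (if p ^ a ∣ n then Real.log (nm p) else 0) ≤ (nf n).count p * Real.log (nm p) := by
    intro p hp
    rw [mem_PP] at hp
    rw [← Finset.sum_filter, Finset.sum_const, nsmul_eq_mul]
    apply mul_le_mul_of_nonneg_right _ (log_nm_nonneg p)
    have : ((Finset.Icc 1 X).filter (fun a => nm p ^ a ≤ X)).filter (fun a => p ^ a ∣ n)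
        ⊆ Finset.Icc 1 ((nf n).count p) := by
      intro a ha
      rw [Finset.mem_filter, Finset.mem_filter, Finset.mem_Icc] at ha
      rw [Finset.mem_Icc]
      exact ⟨ha.1.1.1, (pow_dvd_iff hn hp.2 a).1 ha.2⟩
    have h4 := Finset.card_le_card this
    rw [Nat.card_Icc, Nat.add_sub_cancel] at h4
    exact_mod_cast h4
  refine (Finset.sum_le_sum h1).trans ?_
  have h2 : ∑ p ∈ PP X, ((nf n).count p : ℝ) * Real.log (nm p)
      = ∑ p ∈ (PP X).filter (fun p => p ∈ (nf n).toFinset),
        ((nf n).count p : ℝ) * Real.log (nm p) := by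
    rw [Finset.sum_filter]
    apply Finset.sum_congr rfl
    intro p _
    split_ifs with h
    · rfl
    · rw [Multiset.mem_toFinset] at h
      rw [Multiset.count_eq_zero_of_notMem h]; simp
  rw [h2]
  apply Finset.sum_le_sum_of_subset_of_nonneg
  · intro p hp
    exact (Finset.mem_filter.1 hp).2
  · intro p _ _
    exact mul_nonneg (Nat.cast_nonneg _) (log_nm_nonneg p)

theorem le_WW (X : ℕ) {n : G} (hn : n ≠ 0)
    (h : ∀ p, NP p → ∀ a, 1 ≤ a → p ^ a ∣ n → nm p ^ a ≤ X) : Real.log (nm n) ≤ WW X n := by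
  classical
  unfold WW
  rw [sum_QP X (fun p a => if p ^ a ∣ n then Real.log (nm p) else 0), log_nm hn]
  have hsub : (nf n).toFinset ⊆ PP X := by
    intro p hp
    rw [Multiset.mem_toFinset, mem_nf hn] at hp
    rw [mem_PP]
    have := h p hp.1 1 le_rfl (by rw [pow_one]; exact hp.2)
    rw [pow_one] at this
    exact ⟨this, hp.1⟩
  refine le_trans ?_ (Finset.sum_le_sum_of_subset_of_nonneg hsub ?_)
  · apply Finset.sum_le_sum
    intro p hp
    have hp' : p ∈ nf n := Multiset.mem_toFinset.1 hp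
    have hpn := (mem_nf hn).1 hp'
    rw [← Finset.sum_filter, Finset.sum_const, nsmul_eq_mul]
    apply mul_le_mul_of_nonneg_right _ (log_nm_nonneg p)
    have : Finset.Icc 1 ((nf n).count p) ⊆
        ((Finset.Icc 1 X).filter (fun a => nm p ^ a ≤ X)).filter (fun a => p ^ a ∣ n) := by
      intro a ha
      rw [Finset.mem_Icc] at ha
      have hd : p ^ a ∣ n := (pow_dvd_iff hn hpn.1 a).2 ha.2
      have h3 := h p hpn.1 a ha.1 hd
      have h2 := nm_prime hpn.1.1
      have h6 : a < nm p ^ a := Nat.lt_pow_self (by omega)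
      rw [Finset.mem_filter, Finset.mem_filter, Finset.mem_Icc]
      exact ⟨⟨⟨ha.1, by omega⟩, h3⟩, hd⟩
    have h4 := Finset.card_le_card this
    rw [Nat.card_Icc, Nat.add_sub_cancel] at h4
    exact_mod_cast h4
  · intro p _ _
    apply Finset.sum_nonneg
    intro a _
    split_ifs
    · exact log_nm_nonneg p
    · exact le_rfl

end Pool.Agent.X83.GI
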