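import Pool.Agent.X83.GI.B

open scoped BigOperators

namespace Pool.Agent.X83.GI

/-- Chebyshev for Gaussian primes. -/
theorem exists_cheb : ∃ C : ℝ, 0 ≤ C ∧ (∀ X : ℕ, A1 X ≤ C * X) ∧
    ∀ X : ℕ, ((PP X).card : ℝ) * Real.log X ≤ C * X := by
  obtain ⟨x0, hx0⟩ := Filter.eventually_atTop.1
    (Chebyshev.eventually_primeCounting_le (ε := 1) one_pos)
  set C : ℝ := 2 * max (Real.log 4 + 1) (Real.log (max x0 1)) with hC
  have hlog4 : 0 ≤ Real.log 4 := Real.log_nonneg (by norm_num)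
  have hC0 : 0 ≤ C := by
    have : 0 ≤ max (Real.log 4 + 1) (Real.log (max x0 1)) :=
      le_trans (by linarith) (le_max_left _ _)
    linarith
  have key : ∀ X : ℕ, ((PP X).card : ℝ) * Real.log X ≤ C * X := by
    intro X
    have h1 : ((PP X).card : ℝ) ≤ 2 * (Nat.primeCounting X : ℝ) := by
      exact_mod_cast card_PP X
    have hl : 0 ≤ Real.log X := Real.log_natCast_nonneg X
    have h2 : ((PP X).card : ℝ) * Real.log X ≤ 2 * ((Nat.primeCounting X : ℝ) * Real.log X) := by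
      calc ((PP X).card : ℝ) * Real.log X ≤ 2 * (Nat.primeCounting X : ℝ) * Real.log X :=
            mul_le_mul_of_nonneg_right h1 hl
        _ = _ := by ring
    refine h2.trans ?_
    rcases le_or_gt X 1 with hX | hX
    · have : Real.log X = 0 := by
        interval_cases X <;> simp
      rw [this]; simp; positivity
    · have hlp : 0 < Real.log X := Real.log_pos (by exact_mod_cast hX)
      have hX0 : (0 : ℝ) ≤ X := Nat.cast_nonneg X
      rcases le_or_gt x0 (X : ℝ) with h3 | h3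
      · have h4 := hx0 X h3
        rw [Nat.floor_natCast] at h4
        have h5 : (Nat.primeCounting X : ℝ) * Real.log X ≤ (Real.log 4 + 1) * X := by
          rw [le_div_iff₀ hlp] at h4; exact h4
        have h6 : (Real.log 4 + 1) * (X : ℝ) ≤ max (Real.log 4 + 1) (Real.log (max x0 1)) * X :=
          mul_le_mul_of_nonneg_right (le_max_left _ _) hX0
        rw [hC]; linarith
      · have h4 : (Nat.primeCounting X : ℝ) ≤ X := by
          have : Nat.primeCounting X ≤ X := by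
            rw [Nat.primeCounting, Nat.primeCounting', Nat.count_eq_card_filter_range]
            have h9 : (Finset.range (X + 1)).filter Nat.Prime ⊆ Finset.Icc 1 X := by
              intro q hq
              rw [Finset.mem_filter, Finset.mem_range] at hq
              rw [Finset.mem_Icc]
              exact ⟨hq.2.pos, by omega⟩
            have h10 := Finset.card_le_card h9
            rwa [Nat.card_Icc, Nat.add_sub_cancel] at h10
          exact_mod_cast this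
        have h5 : Real.log X ≤ Real.log (max x0 1) :=
          Real.log_le_log (by linarith [show (1 : ℝ) < X by exact_mod_cast hX])
            (le_trans h3.le (le_max_left _ _))
        have h6 : (Nat.primeCounting X : ℝ) * Real.log X ≤ X * Real.log (max x0 1) :=
          mul_le_mul h4 h5 hl hX0
        have h7 : (X : ℝ) * Real.log (max x0 1)
            ≤ X * max (Real.log 4 + 1) (Real.log (max x0 1)) :=
          mul_le_mul_of_nonneg_left (le_max_right _ _) hX0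
        rw [hC]; linarith
  exact ⟨C, hC0, fun X => (A1_le X).trans (key X), key⟩

theorem rr_pos {w : G} (hw : w ≠ 0) : (0 : ℝ) < rr w := by
  have h1 := rr_lower w hw
  have h2 := nm_pos hw
  have : 0 < rr w := by omega
  exact_mod_cast this

theorem inv_rr_le {w : G} (hw : w ≠ 0) : 1 / (rr w : ℝ) ≤ 2 / (nm w : ℝ) := by
  have h1 : (nm w : ℝ) ≤ 2 * rr w := by exact_mod_cast rr_lower w hw
  have h2 : (0 : ℝ) < nm w := by exact_mod_cast nm_pos hw
  rw [div_le_div_iff₀ (rr_pos hw) h2]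
  linarith

theorem sqrt_le (m : ℕ) : (Nat.sqrt m : ℝ) ≤ Real.sqrt m := Real.nat_sqrt_le_real_sqrt

theorem cnt_upper {w : G} (hw : w ≠ 0) (a b : ℤ) (K : ℕ) :
    (cnt w (bx a b K) : ℝ) ≤ (K : ℝ) ^ 2 / rr w + 8 * K / Real.sqrt (nm w) + 8 := by
  have h1 : (rr w : ℝ) * cnt w (bx a b K) ≤ ((K : ℝ) + 2 * Nat.sqrt (nm w)) ^ 2 := by
    exact_mod_cast upper w hw a b K
  have hr := rr_pos hw
  have hm : (0 : ℝ) < nm w := by exact_mod_cast nm_pos hw
  set s := Real.sqrt (nm w) with hs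
  have hs0 : 0 < s := Real.sqrt_pos.2 hm
  have hss : s * s = nm w := Real.mul_self_sqrt hm.le
  have h2 : ((K : ℝ) + 2 * Nat.sqrt (nm w)) ^ 2 ≤ ((K : ℝ) + 2 * s) ^ 2 := by
    have := sqrt_le (nm w)
    have hK : (0 : ℝ) ≤ K := Nat.cast_nonneg K
    gcongr
  have h3 : (cnt w (bx a b K) : ℝ) ≤ ((K : ℝ) + 2 * s) ^ 2 / rr w := by
    rw [le_div_iff₀ hr]; linarith
  have h4 : ((K : ℝ) + 2 * s) ^ 2 / rr w
      = (K : ℝ) ^ 2 / rr w + (4 * K * s + 4 * (s * s)) * (1 / rr w) := by ring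
  have h5 : (4 * K * s + 4 * (s * s)) * (1 / (rr w : ℝ))
      ≤ (4 * K * s + 4 * (s * s)) * (2 / (nm w : ℝ)) := by
    apply mul_le_mul_of_nonneg_left (inv_rr_le hw) (by positivity)
  have h6 : (4 * K * s + 4 * (s * s)) * (2 / (nm w : ℝ)) = 8 * K / s + 8 := by
    rw [← hss]; field_simp; ring
  rw [h4] at h3
  linarith

theorem cnt_lower {w : G} (hw : w ≠ 0) (a b : ℤ) (K : ℕ) :
    (K : ℝ) ^ 2 / rr w - 8 * K / Real.sqrt (nm w) ≤ (cnt w (bx a b K) : ℝ) := by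
  have hr := rr_pos hw
  have hm : (0 : ℝ) < nm w := by exact_mod_cast nm_pos hw
  set s := Real.sqrt (nm w) with hs
  have hs0 : 0 < s := Real.sqrt_pos.2 hm
  have hss : s * s = nm w := Real.mul_self_sqrt hm.le
  have hK0 : (0 : ℝ) ≤ K := Nat.cast_nonneg K
  have hle := sqrt_le (nm w)
  have h5 : (4 * K * s) * (1 / (rr w : ℝ)) ≤ (4 * K * s) * (2 / (nm w : ℝ)) := by
    apply mul_le_mul_of_nonneg_left (inv_rr_le hw) (by positivity)
  have h6 : (4 * K * s) * (2 / (nm w : ℝ)) = 8 * K / s := by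
    rw [← hss]; field_simp; ring
  have h7 : (K : ℝ) ^ 2 - 4 * K * s ≤ rr w * cnt w (bx a b K) := by
    by_cases h : 2 * Nat.sqrt (nm w) ≤ K
    · have h1 := lower w hw a b K h
      have h2 : (((K - 2 * Nat.sqrt (nm w) : ℕ) : ℝ)) ^ 2 ≤ (rr w : ℝ) * cnt w (bx a b K) := by
        exact_mod_cast h1
      rw [Nat.cast_sub h] at h2
      push_cast at h2
      nlinarith
    · have h2 : (K : ℝ) < 2 * Nat.sqrt (nm w) := by exact_mod_cast not_le.1 h
      have h3 : (K : ℝ) ^ 2 - 4 * K * s ≤ 0 := by nlinarith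
      exact h3.trans (by positivity)
  have h8 : ((K : ℝ) ^ 2 - 4 * K * s) / rr w ≤ cnt w (bx a b K) := by
    rw [div_le_iff₀ hr]; linarith
  have h9 : ((K : ℝ) ^ 2 - 4 * K * s) / rr w
      = (K : ℝ) ^ 2 / rr w - (4 * K * s) * (1 / (rr w : ℝ)) := by ring
  linarith

theorem sum_WW (X : ℕ) (B : Finset G) :
    ∑ n ∈ B, WW X n = ∑ x ∈ QP X, Real.log (nm x.1) * cnt (x.1 ^ x.2) B := by
  classical
  unfold WW cnt
  rw [Finset.sum_comm]
  apply Finset.sum_congr rfl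
  intro x _
  rw [← Finset.sum_filter, Finset.sum_const, nsmul_eq_mul, mul_comm]

/-- The Mertens sum. -/
noncomputable def SS (X : ℕ) : ℝ := ∑ x ∈ QP X, Real.log (nm x.1) / rr (x.1 ^ x.2)

theorem QP_ne {X : ℕ} {x : G × ℕ} (hx : x ∈ QP X) : x.1 ^ x.2 ≠ 0 :=
  pow_ne_zero _ (mem_QP.1 hx).1.1.ne_zero

theorem SS_le {C : ℝ} (hC : ∀ X : ℕ, A1 X ≤ C * X) (Y : ℕ) (hY : 1 ≤ Y) :
    SS (Y ^ 2) ≤ Real.log (2 * (Y : ℝ) ^ 2) + 32 * C := by
  have hY' : (1 : ℝ) ≤ Y := by exact_mod_cast hY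
  have hY0 : (0 : ℝ) < Y := by linarith
  have h1 : ∑ n ∈ bx 1 1 Y, WW (Y ^ 2) n ≤ (Y : ℝ) ^ 2 * Real.log (2 * (Y : ℝ) ^ 2) := by
    have h2 : ∀ n ∈ bx 1 1 Y, WW (Y ^ 2) n ≤ Real.log (2 * (Y : ℝ) ^ 2) := by
      intro n hn
      rw [mem_bx] at hn
      have hn0 : n ≠ 0 := by
        rintro rfl
        simp at hn
      refine (WW_le _ hn0).trans ?_
      apply Real.log_le_log
      · exact_mod_cast nm_pos hn0
      · have h3 : (nm n : ℤ) ≤ 2 * (Y : ℤ) ^ 2 := by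
          rw [nm_cast]
          have h4 : n.re ^ 2 ≤ (Y : ℤ) ^ 2 := by
            apply pow_le_pow_left₀ <;> omega
          have h5 : n.im ^ 2 ≤ (Y : ℤ) ^ 2 := by
            apply pow_le_pow_left₀ <;> omega
          linarith
        exact_mod_cast h3
    calc ∑ n ∈ bx 1 1 Y, WW (Y ^ 2) n ≤ ∑ n ∈ bx 1 1 Y, Real.log (2 * (Y : ℝ) ^ 2) :=
          Finset.sum_le_sum h2
      _ = _ := by rw [Finset.sum_const, card_bx, nsmul_eq_mul]; push_cast; ring
  rw [sum_WW] at h1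
  have h2 : (Y : ℝ) ^ 2 * SS (Y ^ 2) - 8 * Y * A2 (Y ^ 2)
      ≤ ∑ x ∈ QP (Y ^ 2), Real.log (nm x.1) * cnt (x.1 ^ x.2) (bx 1 1 Y) := by
    unfold SS A2
    rw [Finset.mul_sum, Finset.mul_sum, ← Finset.sum_sub_distrib]
    apply Finset.sum_le_sum
    intro x hx
    have h3 := cnt_lower (QP_ne hx) 1 1 Y
    have h4 := mul_le_mul_of_nonneg_left h3 (log_nm_nonneg x.1)
    rw [nm_pow] at h4
    calc (Y : ℝ) ^ 2 * (Real.log (nm x.1) / rr (x.1 ^ x.2))
          - 8 * Y * (Real.log (nm x.1) / Real.sqrt ((nm x.1 ^ x.2 : ℕ) : ℝ))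
        = Real.log (nm x.1) * ((Y : ℝ) ^ 2 / rr (x.1 ^ x.2)
          - 8 * Y / Real.sqrt ((nm x.1 ^ x.2 : ℕ) : ℝ)) := by ring
      _ ≤ _ := h4
  have h3 := A2_le hC (Y ^ 2)
  have h4 : Real.sqrt ((Y ^ 2 : ℕ) : ℝ) = Y := by
    push_cast; exact Real.sqrt_sq hY0.le
  rw [h4] at h3
  have h5 : (Y : ℝ) ^ 2 * SS (Y ^ 2) ≤ (Y : ℝ) ^ 2 * (Real.log (2 * (Y : ℝ) ^ 2) + 32 * C) := by
    have h6 : 8 * (Y : ℝ) * A2 (Y ^ 2) ≤ 8 * Y * (4 * C * Y) :=
      mul_le_mul_of_nonneg_left h3 (by positivity)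
    nlinarith
  exact le_of_mul_le_mul_left h5 (by positivity)

theorem sum_WW_le {C : ℝ} (hC0 : 0 ≤ C) (hC : ∀ X : ℕ, A1 X ≤ C * X) (Y : ℕ) (hY : 1 ≤ Y)
    (a b : ℤ) (K : ℕ) :
    ∑ n ∈ bx a b K, WW (Y ^ 2) n
      ≤ (K : ℝ) ^ 2 * (Real.log (2 * (Y : ℝ) ^ 2) + 32 * C) + 32 * C * K * Y
        + 8 * C * (Y : ℝ) ^ 2 := by
  have hY0 : (0 : ℝ) < Y := by exact_mod_cast hY
  have hK0 : (0 : ℝ) ≤ K := Nat.cast_nonneg K
  rw [sum_WW]
  have h1 : ∑ x ∈ QP (Y ^ 2), Real.log (nm x.1) * cnt (x.1 ^ x.2) (bx a b K)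
      ≤ (K : ℝ) ^ 2 * SS (Y ^ 2) + 8 * K * A2 (Y ^ 2) + 8 * A1 (Y ^ 2) := by
    unfold SS A2 A1
    rw [Finset.mul_sum, Finset.mul_sum, Finset.mul_sum, ← Finset.sum_add_distrib,
      ← Finset.sum_add_distrib]
    apply Finset.sum_le_sum
    intro x hx
    have h3 := cnt_upper (QP_ne hx) a b K
    have h4 := mul_le_mul_of_nonneg_left h3 (log_nm_nonneg x.1)
    rw [nm_pow] at h4
    refine h4.trans (le_of_eq ?_)
    ring
  have h2 := SS_le hC Y hY
  have h3 := A2_le hC (Y ^ 2)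
  have h4 : Real.sqrt ((Y ^ 2 : ℕ) : ℝ) = Y := by
    push_cast; exact Real.sqrt_sq hY0.le
  rw [h4] at h3
  have h5 := hC (Y ^ 2)
  have e1 : (K : ℝ) ^ 2 * SS (Y ^ 2) ≤ (K : ℝ) ^ 2 * (Real.log (2 * (Y : ℝ) ^ 2) + 32 * C) :=
    mul_le_mul_of_nonneg_left h2 (by positivity)
  have e2 : 8 * (K : ℝ) * A2 (Y ^ 2) ≤ 8 * K * (4 * C * Y) :=
    mul_le_mul_of_nonneg_left h3 (by positivity)
  have e3 : 8 * A1 (Y ^ 2) ≤ 8 * (C * ((Y : ℝ) ^ 2)) := by
    have : A1 (Y ^ 2) ≤ C * ((Y : ℝ) ^ 2) := by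
      have := h5; push_cast at this; exact this
    linarith
  calc _ ≤ _ := h1
    _ ≤ (K : ℝ) ^ 2 * (Real.log (2 * (Y : ℝ) ^ 2) + 32 * C) + 8 * K * (4 * C * Y)
        + 8 * (C * ((Y : ℝ) ^ 2)) := by linarith
    _ = _ := by ring

/-- Few multiples of a large element in a small box. -/
theorem cnt_large {w : G} (hw : w ≠ 0) (a b : ℤ) (K : ℕ) (hK : K ^ 2 ≤ nm w) :
    cnt w (bx a b K) ≤ 18 := by
  have h1 := upper w hw a b K
  have h2 := rr_lower w hw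
  have hpos := nm_pos hw
  have h3 : Nat.sqrt (nm w) ^ 2 ≤ nm w := Nat.sqrt_le' _
  have h4 : (K + 2 * Nat.sqrt (nm w)) ^ 2 ≤ 9 * nm w := by
    set s := Nat.sqrt (nm w)
    have h5 : K * s ≤ nm w := by
      rcases le_total K s with h | h
      · nlinarith
      · nlinarith
    nlinarith
  by_contra hcon
  have h5 : 19 ≤ cnt w (bx a b K) := by omega
  have h6 : rr w * 19 ≤ rr w * cnt w (bx a b K) := Nat.mul_le_mul_left _ h5
  omega

/-- Elements without large prime factors. -/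
def Sm (X : ℕ) (n : G) : Prop := ∀ p, NP p → p ∣ n → nm p ≤ X

/-- Elements with a large prime power divisor. -/
def Ex (X : ℕ) (n : G) : Prop := ∃ p, NP p ∧ nm p ≤ X ∧ ∃ a, p ^ a ∣ n ∧ X < nm p ^ a

open scoped Classical in
theorem card_Ex (X : ℕ) (a b : ℤ) (K : ℕ) (hK : K ^ 2 ≤ X) :
    ((bx a b K).filter (Ex X)).card ≤ 18 * (PP X).card := by
  have hex : ∀ p : G, NP p → ∃ e, X < nm p ^ e := by
    intro p hp
    have h2 := nm_prime hp.1
    exact ⟨X, Nat.lt_pow_self (by omega)⟩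
  have h1 : (bx a b K).filter (Ex X) ⊆ (PP X).biUnion fun p =>
      (bx a b K).filter fun n => (if h : NP p then p ^ (Nat.find (hex p h)) else 0) ∣ n := by
    intro n hn
    rw [Finset.mem_filter] at hn
    obtain ⟨hnb, p, hp, hpX, e, he, hXe⟩ := hn
    rw [Finset.mem_biUnion]
    refine ⟨p, mem_PP.2 ⟨hpX, hp⟩, ?_⟩
    rw [Finset.mem_filter, dif_pos hp]
    refine ⟨hnb, ?_⟩
    exact (pow_dvd_pow p (Nat.find_min' (hex p hp) hXe)).trans he
  refine (Finset.card_le_card h1).trans ?_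
  refine Finset.card_biUnion_le.trans ?_
  rw [mul_comm, ← smul_eq_mul, ← Finset.sum_const]
  apply Finset.sum_le_sum
  intro p hp
  have hpp := (mem_PP.1 hp).2
  rw [dif_pos hpp]
  have h2 := Nat.find_spec (hex p hpp)
  have h3 : p ^ (Nat.find (hex p hpp)) ≠ 0 := pow_ne_zero _ hpp.1.ne_zero
  have h4 := cnt_large h3 a b K (by rw [nm_pow]; omega)
  unfold cnt at h4
  convert h4

open scoped Classical in
/-- The main inequality. -/
theorem main_ineq {C : ℝ} (hC0 : 0 ≤ C) (hC : ∀ X : ℕ, A1 X ≤ C * X) (Y : ℕ) (hY : 1 ≤ Y)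
    (a b : ℤ) (K : ℕ) (hK : K ≤ Y) (m0 : ℝ) (hm0 : 1 ≤ m0)
    (hm : ∀ n ∈ bx a b K, m0 ≤ nm n) :
    (((bx a b K).filter (Sm (Y ^ 2))).card : ℝ) * Real.log m0
      ≤ (K : ℝ) ^ 2 * (Real.log (2 * (Y : ℝ) ^ 2) + 32 * C) + 32 * C * K * Y
        + 8 * C * (Y : ℝ) ^ 2 + 18 * (PP (Y ^ 2)).card * Real.log m0 := by
  have hl0 : 0 ≤ Real.log m0 := Real.log_nonneg hm0
  set B := bx a b K with hB
  have hne : ∀ n ∈ B, n ≠ 0 := by
    rintro n hn rfl
    have := hm 0 hn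
    have h0 : nm 0 = 0 := nm_eq_zero.2 rfl
    rw [h0] at this
    norm_num at this
    linarith
  have h1 : ((B.filter (Sm (Y ^ 2))).card : ℝ)
      ≤ ((B.filter (fun n => Sm (Y ^ 2) n ∧ ¬ Ex (Y ^ 2) n)).card : ℝ)
        + ((B.filter (Ex (Y ^ 2))).card : ℝ) := by
    rw [← Nat.cast_add]
    have h2 : B.filter (Sm (Y ^ 2)) ⊆ B.filter (fun n => Sm (Y ^ 2) n ∧ ¬ Ex (Y ^ 2) n)
        ∪ B.filter (Ex (Y ^ 2)) := by
      intro n hn
      rw [Finset.mem_filter] at hn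
      rw [Finset.mem_union, Finset.mem_filter, Finset.mem_filter]
      by_cases h : Ex (Y ^ 2) n
      · right; exact ⟨hn.1, h⟩
      · left; exact ⟨hn.1, hn.2, h⟩
    exact_mod_cast (Finset.card_le_card h2).trans (Finset.card_union_le _ _)
  have h2 : ((B.filter (Ex (Y ^ 2))).card : ℝ) ≤ 18 * (PP (Y ^ 2)).card := by
    exact_mod_cast card_Ex (Y ^ 2) a b K (Nat.pow_le_pow_left hK 2)
  have h3 : ((B.filter (fun n => Sm (Y ^ 2) n ∧ ¬ Ex (Y ^ 2) n)).card : ℝ) * Real.log m0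
      ≤ ∑ n ∈ B, WW (Y ^ 2) n := by
    rw [← nsmul_eq_mul, ← Finset.sum_const]
    have h4 : ∑ n ∈ B.filter (fun n => Sm (Y ^ 2) n ∧ ¬ Ex (Y ^ 2) n), Real.log m0
        ≤ ∑ n ∈ B.filter (fun n => Sm (Y ^ 2) n ∧ ¬ Ex (Y ^ 2) n), WW (Y ^ 2) n := by
      apply Finset.sum_le_sum
      intro n hn
      rw [Finset.mem_filter] at hn
      obtain ⟨hnB, hS, hE⟩ := hn
      have h5 : Real.log m0 ≤ Real.log (nm n) := Real.log_le_log (by linarith) (hm n hnB)
      refine h5.trans (le_WW _ (hne n hnB) ?_)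
      intro p hp e he hd
      by_contra hcon
      apply hE
      refine ⟨p, hp, hS p hp ((dvd_pow_self p (by omega)).trans hd), e, hd, not_le.1 hcon⟩
    refine h4.trans ?_
    apply Finset.sum_le_sum_of_subset_of_nonneg (Finset.filter_subset _ _)
    intro n _ _
    unfold WW
    apply Finset.sum_nonneg
    intro x _
    split_ifs
    · exact log_nm_nonneg _
    · exact le_rfl
  have h4 := sum_WW_le hC0 hC Y hY a b K
  calc ((B.filter (Sm (Y ^ 2))).card : ℝ) * Real.log m0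
      ≤ (((B.filter (fun n => Sm (Y ^ 2) n ∧ ¬ Ex (Y ^ 2) n)).card : ℝ)
        + 18 * (PP (Y ^ 2)).card) * Real.log m0 :=
        mul_le_mul_of_nonneg_right (h1.trans (by linarith)) hl0
    _ = ((B.filter (fun n => Sm (Y ^ 2) n ∧ ¬ Ex (Y ^ 2) n)).card : ℝ) * Real.log m0
        + 18 * (PP (Y ^ 2)).card * Real.log m0 := by ring
    _ ≤ _ := by linarith

end Pool.Agent.X83.GI
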