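import Mathlib

open scoped BigOperators

namespace Pool.Agent.X83.GI

/-- `f(mn) = f(m) f(n)` for all nonzero Gaussian integers `m`, `n` (only the values of `f` at
nonzero Gaussian integers matter). -/
def CompletelyMultiplicative (f : GaussianInt → ℝ) : Prop :=
  ∀ m n : GaussianInt, m ≠ 0 → n ≠ 0 → f (m * n) = f m * f n

/-- `f` is bounded on the nonzero Gaussian integers. -/
def BoundedOnNonzero (f : GaussianInt → ℝ) : Prop :=
  ∃ B : ℝ, ∀ n : GaussianInt, n ≠ 0 → |f n| ≤ B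

/-- The shifted square `⌊N ^ (1 + ε)⌋ + Q_N`, with
`Q_N = {n : |Re n| < N, |Im n| < N}`. -/
noncomputable def shiftedSquare (ε : ℝ) (N : ℕ) : Finset GaussianInt :=
  (Finset.Ioo (⌊(N : ℝ) ^ (1 + ε)⌋ - (N : ℤ)) (⌊(N : ℝ) ^ (1 + ε)⌋ + (N : ℤ)) ×ˢ
    Finset.Ioo (-(N : ℤ)) (N : ℤ)).image fun p => (⟨p.1, p.2⟩ : GaussianInt)

/-- The average of `f` over a finite set. -/
noncomputable def average (f : GaussianInt → ℝ) (Φ : Finset GaussianInt) : ℝ :=
  (∑ n ∈ Φ, f n) / (Φ.card : ℝ)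

end Pool.Agent.X83.GI
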