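import Pool.Agent.X83.GI.C
import Pool.Agent.X83.GI.Defs

open scoped BigOperators

namespace Pool.Agent.X83.GI

/-- The shift. -/
noncomputable def MM (ε : ℝ) (N : ℕ) : ℤ := ⌊(N : ℝ) ^ (1 + ε)⌋

theorem square_eq (ε : ℝ) (N : ℕ) (hN : 1 ≤ N) :
    shiftedSquare ε N = bx (MM ε N - N + 1) (-N + 1) (2 * N - 1) := by
  ext z
  rw [mem_bx]
  unfold shiftedSquare MM
  rw [Finset.mem_image]
  have hc : ((2 * N - 1 : ℕ) : ℤ) = 2 * (N : ℤ) - 1 := by
    rw [Nat.cast_sub (by omega)]; push_cast; ring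
  rw [hc]
  constructor
  · rintro ⟨p, hp, rfl⟩
    rw [Finset.mem_product, Finset.mem_Ioo, Finset.mem_Ioo] at hp
    dsimp only
    omega
  · intro h
    refine ⟨(z.re, z.im), ?_, rfl⟩
    rw [Finset.mem_product, Finset.mem_Ioo, Finset.mem_Ioo]
    dsimp only
    omega

theorem card_square (ε : ℝ) (N : ℕ) (hN : 1 ≤ N) :
    (shiftedSquare ε N).card = (2 * N - 1) ^ 2 := by
  rw [square_eq ε N hN, card_bx]

/-- Lower bound for the norms in the square. -/
theorem norm_lower (ε : ℝ) (N : ℕ) (hN : 1 ≤ N) (h2 : 2 * (N : ℝ) ≤ (N : ℝ) ^ (1 + ε))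
    (n : G) (hn : n ∈ shiftedSquare ε N) :
    ((N : ℝ) ^ (1 + ε)) ^ 2 / 4 ≤ nm n := by
  rw [square_eq ε N hN, mem_bx] at hn
  have h1 : (N : ℝ) ^ (1 + ε) < MM ε N + 1 := Int.lt_floor_add_one _
  have h3 : ((MM ε N - N + 1 : ℤ) : ℝ) ≤ n.re := by exact_mod_cast hn.1
  push_cast at h3
  have h4 : (N : ℝ) ^ (1 + ε) / 2 ≤ n.re := by linarith
  have h5 : (nm n : ℝ) = (n.re : ℝ) ^ 2 + (n.im : ℝ) ^ 2 := by
    have := nm_cast n
    exact_mod_cast this
  have hp : 0 ≤ (N : ℝ) ^ (1 + ε) / 2 := by positivity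
  rw [h5]
  have h6 : ((N : ℝ) ^ (1 + ε) / 2) ^ 2 ≤ (n.re : ℝ) ^ 2 := by gcongr
  nlinarith [sq_nonneg (n.im : ℝ)]

/-- Upper bound for the norms in the square. -/
theorem norm_upper (ε : ℝ) (N : ℕ) (hN : 1 ≤ N) (h2 : 2 * (N : ℝ) ≤ (N : ℝ) ^ (1 + ε))
    (n : G) (hn : n ∈ shiftedSquare ε N) :
    (nm n : ℝ) ≤ 5 * ((N : ℝ) ^ (1 + ε)) ^ 2 := by
  have hn0 := hn
  rw [square_eq ε N hN, mem_bx] at hn
  have hc : ((2 * N - 1 : ℕ) : ℤ) = 2 * (N : ℤ) - 1 := by
    rw [Nat.cast_sub (by omega)]; push_cast; ring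
  rw [hc] at hn
  set R := (N : ℝ) ^ (1 + ε) with hR
  have h1 : (MM ε N : ℝ) ≤ R := Int.floor_le _
  have h1' : R < MM ε N + 1 := Int.lt_floor_add_one _
  have hN' : (1 : ℝ) ≤ N := by exact_mod_cast hN
  have h3 : (n.re : ℝ) ≤ MM ε N + N := by
    have : n.re ≤ MM ε N + N := by omega
    exact_mod_cast this
  have h3' : (0 : ℝ) ≤ n.re := by
    have : ((MM ε N - N + 1 : ℤ) : ℝ) ≤ n.re := by exact_mod_cast hn.1
    push_cast at this
    linarith
  have h4 : |(n.im : ℝ)| ≤ N := by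
    rw [abs_le]
    constructor
    · have : -(N : ℤ) ≤ n.im := by omega
      exact_mod_cast this
    · have : n.im ≤ (N : ℤ) := by omega
      exact_mod_cast this
  have h5 : (nm n : ℝ) = (n.re : ℝ) ^ 2 + (n.im : ℝ) ^ 2 := by
    have := nm_cast n
    exact_mod_cast this
  rw [h5]
  have h6 : (n.re : ℝ) ^ 2 ≤ (2 * R) ^ 2 := by
    apply pow_le_pow_left₀ h3'
    linarith
  have h7 : (n.im : ℝ) ^ 2 ≤ R ^ 2 := by
    apply sq_le_sq'
    · have := (abs_le.1 h4).1; linarith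
    · have := (abs_le.1 h4).2; linarith
  nlinarith

theorem eventually_two (ε : ℝ) (hε : 0 < ε) :
    ∀ᶠ N : ℕ in Filter.atTop, 2 * (N : ℝ) ≤ (N : ℝ) ^ (1 + ε) := by
  have h1 : Filter.Tendsto (fun N : ℕ => (N : ℝ) ^ ε) Filter.atTop Filter.atTop :=
    (tendsto_rpow_atTop hε).comp tendsto_natCast_atTop_atTop
  filter_upwards [h1.eventually_ge_atTop 2, Filter.eventually_ge_atTop 1] with N h2 hN
  have hN' : (0 : ℝ) < N := by exact_mod_cast hN
  rw [Real.rpow_add hN', Real.rpow_one, mul_comm]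
  exact mul_le_mul_of_nonneg_left h2 hN'.le

open scoped Classical in
/-- A positive proportion of the square has a large prime factor. -/
theorem eventually_few (ε : ℝ) (hε : 0 < ε) (L : ℕ) (hL : 1 ≤ L) :
    ∀ᶠ N : ℕ in Filter.atTop,
      ((((shiftedSquare ε N).filter (Sm ((L * (2 * N - 1)) ^ 2))).card : ℕ) : ℝ)
        ≤ (2 + ε) / (2 + 2 * ε) * ((shiftedSquare ε N).card : ℝ) := by
  obtain ⟨C, hC0, hC1, hC2⟩ := exists_cheb
  have hL' : (1 : ℝ) ≤ L := by exact_mod_cast hL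
  have hlog4 : 0 < Real.log 4 := Real.log_pos (by norm_num)
  set C' : ℝ := 2 * Real.log L + 3 * Real.log 2 + 32 * C + 32 * C * L + 8 * C * (L : ℝ) ^ 2
    + 18 * (1 + ε) * C * (L : ℝ) ^ 2 with hC'
  have hlogt : Filter.Tendsto (fun N : ℕ => Real.log (N : ℝ)) Filter.atTop Filter.atTop :=
    Real.tendsto_log_atTop.comp tendsto_natCast_atTop_atTop
  filter_upwards [eventually_two ε hε, Filter.eventually_ge_atTop 2,
    hlogt.eventually_ge_atTop ((C' + Real.log 4) / ε)] with N h2 hN hlN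
  have hN1 : 1 ≤ N := by omega
  have hNr : (2 : ℝ) ≤ N := by exact_mod_cast hN
  set K := 2 * N - 1 with hK
  have hKr : (K : ℝ) = 2 * N - 1 := by
    rw [hK, Nat.cast_sub (by omega)]; push_cast; ring
  set Y := L * K with hY
  have hKY : K ≤ Y := Nat.le_mul_of_pos_left K (by omega)
  have hK1 : 1 ≤ K := by omega
  have hY1 : 1 ≤ Y := le_trans hK1 hKY
  set t := Real.log N with ht
  have ht0 : 0 < t := Real.log_pos (by linarith)
  set m0 : ℝ := ((N : ℝ) ^ (1 + ε)) ^ 2 / 4 with hm0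
  have hm01 : 1 ≤ m0 := by
    have : (4 : ℝ) ≤ (N : ℝ) ^ (1 + ε) := by linarith
    rw [hm0]; nlinarith
  have hlogm0 : Real.log m0 = 2 * (1 + ε) * t - Real.log 4 := by
    rw [hm0, Real.log_div (by positivity) (by norm_num), Real.log_pow, Real.log_rpow (by linarith)]
    push_cast; ring
  rw [card_square ε N hN1, square_eq ε N hN1, ← hK]
  have hmain := main_ineq hC0 hC1 Y hY1 (MM ε N - N + 1) (-N + 1) K hKY m0 hm01
    (by
      intro n hn
      rw [hK, ← square_eq ε N hN1] at hn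
      exact norm_lower ε N hN1 h2 n hn)
  have hpp := hC2 (Y ^ 2)
  have hKpos : (0 : ℝ) < K := by exact_mod_cast hK1
  have hYr : (Y : ℝ) = L * K := by rw [hY]; push_cast; ring
  have hlY : 2 * t ≤ Real.log ((Y ^ 2 : ℕ) : ℝ) := by
    push_cast
    rw [Real.log_pow]
    have : t ≤ Real.log Y := by
      apply Real.log_le_log (by linarith)
      rw [hYr]
      nlinarith
    push_cast; linarith
  have hPPm : ((PP (Y ^ 2)).card : ℝ) * Real.log m0 ≤ (1 + ε) * (C * (Y : ℝ) ^ 2) := by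
    have h3 : Real.log m0 ≤ (1 + ε) * Real.log ((Y ^ 2 : ℕ) : ℝ) := by
      rw [hlogm0]; nlinarith
    calc ((PP (Y ^ 2)).card : ℝ) * Real.log m0
        ≤ ((PP (Y ^ 2)).card : ℝ) * ((1 + ε) * Real.log ((Y ^ 2 : ℕ) : ℝ)) :=
          mul_le_mul_of_nonneg_left h3 (Nat.cast_nonneg _)
      _ = (1 + ε) * (((PP (Y ^ 2)).card : ℝ) * Real.log ((Y ^ 2 : ℕ) : ℝ)) := by ring
      _ ≤ (1 + ε) * (C * ((Y ^ 2 : ℕ) : ℝ)) := mul_le_mul_of_nonneg_left hpp (by linarith)
      _ = _ := by push_cast; ring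
  have hlog2Y : Real.log (2 * (Y : ℝ) ^ 2) ≤ 2 * t + 2 * Real.log L + 3 * Real.log 2 := by
    have hKN : Real.log K ≤ t + Real.log 2 := by
      rw [ht, ← Real.log_mul (by positivity) (by norm_num)]
      apply Real.log_le_log hKpos
      rw [hKr]; linarith
    rw [Real.log_mul (by norm_num) (by positivity), Real.log_pow, hYr,
      Real.log_mul (by positivity) (by positivity)]
    push_cast
    linarith
  have h5 : (((bx (MM ε N - N + 1) (-N + 1) K).filter (Sm (Y ^ 2))).card : ℝ) * Real.log m0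
      ≤ (K : ℝ) ^ 2 * (2 * t + C') := by
    have e1 : (K : ℝ) ^ 2 * (Real.log (2 * (Y : ℝ) ^ 2) + 32 * C)
        ≤ (K : ℝ) ^ 2 * (2 * t + 2 * Real.log L + 3 * Real.log 2 + 32 * C) :=
      mul_le_mul_of_nonneg_left (by linarith) (by positivity)
    have e2 : 18 * ((PP (Y ^ 2)).card : ℝ) * Real.log m0
        ≤ 18 * ((1 + ε) * (C * (Y : ℝ) ^ 2)) := by
      have : 18 * ((PP (Y ^ 2)).card : ℝ) * Real.log m0
          = 18 * (((PP (Y ^ 2)).card : ℝ) * Real.log m0) := by ring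
      rw [this]; linarith
    calc _ ≤ _ := hmain
      _ ≤ (K : ℝ) ^ 2 * (2 * t + 2 * Real.log L + 3 * Real.log 2 + 32 * C) + 32 * C * K * Y
          + 8 * C * (Y : ℝ) ^ 2 + 18 * ((1 + ε) * (C * (Y : ℝ) ^ 2)) := by linarith
      _ = (K : ℝ) ^ 2 * (2 * t + C') := by rw [hYr, hC']; ring
  have h6 : 2 * t + C' ≤ (2 + ε) / (2 + 2 * ε) * Real.log m0 := by
    rw [hlogm0]
    have hc1 : (2 + ε) / (2 + 2 * ε) ≤ 1 := by
      rw [div_le_one (by linarith)]; linarith
    have e1 : (2 + ε) / (2 + 2 * ε) * (2 * (1 + ε) * t - Real.log 4)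
        = (2 + ε) * t - (2 + ε) / (2 + 2 * ε) * Real.log 4 := by
      have : (2 + 2 * ε) ≠ 0 := by linarith
      field_simp
    rw [e1]
    have e2 : (C' + Real.log 4) ≤ ε * t := by
      rw [div_le_iff₀ hε] at hlN
      linarith
    have e3 : (2 + ε) / (2 + 2 * ε) * Real.log 4 ≤ Real.log 4 := by
      calc _ ≤ 1 * Real.log 4 := mul_le_mul_of_nonneg_right hc1 hlog4.le
        _ = _ := one_mul _
    linarith
  have hlm : 0 < Real.log m0 := by
    rw [hlogm0]
    have : 2 * t ≤ 2 * (1 + ε) * t := by nlinarith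
    have h4N : Real.log 4 ≤ 2 * t := by
      have e : (4 : ℝ) = 2 ^ 2 := by norm_num
      rw [e, Real.log_pow]
      have : Real.log 2 ≤ t := Real.log_le_log (by norm_num) hNr
      push_cast; linarith
    nlinarith
  have h7 : (((bx (MM ε N - N + 1) (-N + 1) K).filter (Sm (Y ^ 2))).card : ℝ) * Real.log m0
      ≤ ((2 + ε) / (2 + 2 * ε) * ((K ^ 2 : ℕ) : ℝ)) * Real.log m0 := by
    refine h5.trans ?_
    calc (K : ℝ) ^ 2 * (2 * t + C') ≤ (K : ℝ) ^ 2 * ((2 + ε) / (2 + 2 * ε) * Real.log m0) :=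
          mul_le_mul_of_nonneg_left h6 (by positivity)
      _ = _ := by push_cast; ring
  exact le_of_mul_le_mul_right h7 hlm

open scoped Classical in
/-- The large primes of a square. -/
noncomputable def PS (ε : ℝ) (L N : ℕ) : Finset G :=
  ((shiftedSquare ε N).biUnion (fun n => (nf n).toFinset)).filter
    (fun p => (L * (2 * N - 1)) ^ 2 < nm p)

theorem square_ne {ε : ℝ} {N : ℕ} (hN : 1 ≤ N) (h2 : 2 * (N : ℝ) ≤ (N : ℝ) ^ (1 + ε)) {n : G}
    (hn : n ∈ shiftedSquare ε N) : n ≠ 0 := by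
  rintro rfl
  have h1 := norm_lower ε N hN h2 0 hn
  have h0 : nm 0 = 0 := nm_eq_zero.2 rfl
  rw [h0] at h1
  have hN' : (1 : ℝ) ≤ N := by exact_mod_cast hN
  have : (4 : ℝ) ≤ ((N : ℝ) ^ (1 + ε)) ^ 2 := by nlinarith
  push_cast at h1
  linarith

theorem mem_PS {ε : ℝ} {L N : ℕ} (hN : 1 ≤ N) (h2 : 2 * (N : ℝ) ≤ (N : ℝ) ^ (1 + ε)) {p : G} :
    p ∈ PS ε L N ↔ NP p ∧ (L * (2 * N - 1)) ^ 2 < nm p ∧ ∃ n ∈ shiftedSquare ε N, p ∣ n := by
  classical
  unfold PS
  rw [Finset.mem_filter, Finset.mem_biUnion]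
  constructor
  · rintro ⟨⟨n, hn, hp⟩, h1⟩
    rw [Multiset.mem_toFinset, mem_nf (square_ne hN h2 hn)] at hp
    exact ⟨hp.1, h1, n, hn, hp.2⟩
  · rintro ⟨hp, h1, n, hn, hd⟩
    refine ⟨⟨n, hn, ?_⟩, h1⟩
    rw [Multiset.mem_toFinset, mem_nf (square_ne hN h2 hn)]
    exact ⟨hp, hd⟩

theorem sum_inv_PS (ε : ℝ) (hε : 0 < ε) (L N : ℕ) (hL : 1 ≤ L) (hN : 3 ≤ N)
    (h2 : 2 * (N : ℝ) ≤ (N : ℝ) ^ (1 + ε)) :
    ∑ p ∈ PS ε L N, 1 / (nm p : ℝ) ≤ (2 + ε) / (L : ℝ) ^ 2 := by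
  classical
  have hN1 : 1 ≤ N := by omega
  have hNr : (3 : ℝ) ≤ N := by exact_mod_cast hN
  have hL' : (1 : ℝ) ≤ L := by exact_mod_cast hL
  set K := 2 * N - 1 with hK
  have hKr : (K : ℝ) = 2 * N - 1 := by
    rw [hK, Nat.cast_sub (by omega)]; push_cast; ring
  have hKN : (N : ℝ) ≤ K := by rw [hKr]; linarith
  set t := Real.log N with ht
  have ht0 : 0 < t := Real.log_pos (by linarith)
  have hlog5 : Real.log 5 ≤ 2 * t := by
    have e : 2 * t = Real.log ((N : ℝ) ^ 2) := by rw [Real.log_pow]; push_cast; rfl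
    rw [e]
    apply Real.log_le_log (by norm_num)
    nlinarith
  have hX0 : (0 : ℝ) < (((L * K) ^ 2 : ℕ) : ℝ) := by
    push_cast
    have : (0 : ℝ) < L * K := mul_pos (by linarith) (by linarith)
    exact pow_pos this 2
  have hlX : 2 * t ≤ Real.log (((L * K) ^ 2 : ℕ) : ℝ) := by
    push_cast
    rw [Real.log_pow]
    have : t ≤ Real.log (L * K : ℝ) := by
      apply Real.log_le_log (by linarith)
      nlinarith
    push_cast; linarith
  have hcard : ((PS ε L N).card : ℝ) ≤ (2 + ε) * (K : ℝ) ^ 2 := by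
    have h1 : (PS ε L N).card ≤ ∑ n ∈ shiftedSquare ε N,
        ((nf n).toFinset.filter fun p => (L * K) ^ 2 < nm p).card := by
      refine le_trans (Finset.card_le_card ?_) Finset.card_biUnion_le
      intro p hp
      unfold PS at hp
      rw [Finset.mem_filter, Finset.mem_biUnion] at hp
      obtain ⟨⟨n, hn, hpn⟩, h3⟩ := hp
      rw [Finset.mem_biUnion]
      exact ⟨n, hn, Finset.mem_filter.2 ⟨hpn, h3⟩⟩
    have h3 : ∀ n ∈ shiftedSquare ε N,
        ((((nf n).toFinset.filter fun p => (L * K) ^ 2 < nm p).card : ℕ) : ℝ) ≤ 2 + ε := by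
      intro n hn
      have hn0 := square_ne hN1 h2 hn
      have h4 : ((((nf n).toFinset.filter fun p => (L * K) ^ 2 < nm p).card : ℕ) : ℝ) * (2 * t)
          ≤ Real.log (nm n) := by
        rw [log_nm hn0, ← nsmul_eq_mul, ← Finset.sum_const]
        refine le_trans ?_ (Finset.sum_le_sum_of_subset_of_nonneg
          (Finset.filter_subset (fun p => (L * K) ^ 2 < nm p) _) ?_)
        · apply Finset.sum_le_sum
          intro p hp
          rw [Finset.mem_filter] at hp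
          have h5 : 1 ≤ (nf n).count p := by
            rw [Multiset.one_le_count_iff_mem]; exact Multiset.mem_toFinset.1 hp.1
          have h6 : 2 * t ≤ Real.log (nm p) := by
            refine hlX.trans (Real.log_le_log hX0 ?_)
            exact_mod_cast hp.2.le
          calc 2 * t ≤ 1 * Real.log (nm p) := by linarith
            _ ≤ ((nf n).count p : ℝ) * Real.log (nm p) :=
              mul_le_mul_of_nonneg_right (by exact_mod_cast h5) (log_nm_nonneg p)
        · intro p _ _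
          exact mul_nonneg (Nat.cast_nonneg _) (log_nm_nonneg p)
      have h5 : Real.log (nm n) ≤ 2 * (1 + ε) * t + 2 * t := by
        have h6 := norm_upper ε N hN1 h2 n hn
        have h7 : Real.log (nm n) ≤ Real.log (5 * ((N : ℝ) ^ (1 + ε)) ^ 2) :=
          Real.log_le_log (by exact_mod_cast nm_pos hn0) h6
        rw [Real.log_mul (by norm_num) (by positivity), Real.log_pow,
          Real.log_rpow (by linarith)] at h7
        push_cast at h7
        linarith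
      have h8 : ((((nf n).toFinset.filter fun p => (L * K) ^ 2 < nm p).card : ℕ) : ℝ) * (2 * t)
          ≤ (2 + ε) * (2 * t) := by
        refine h4.trans (h5.trans (le_of_eq ?_))
        ring
      exact le_of_mul_le_mul_right h8 (by linarith)
    calc ((PS ε L N).card : ℝ) ≤ ∑ n ∈ shiftedSquare ε N,
          ((((nf n).toFinset.filter fun p => (L * K) ^ 2 < nm p).card : ℕ) : ℝ) := by
            exact_mod_cast h1
      _ ≤ ∑ n ∈ shiftedSquare ε N, (2 + ε) := Finset.sum_le_sum h3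
      _ = _ := by
        rw [Finset.sum_const, card_square ε N hN1, nsmul_eq_mul, ← hK]
        push_cast; ring
  have h4 : ∑ p ∈ PS ε L N, 1 / (nm p : ℝ) ≤ ∑ p ∈ PS ε L N, 1 / (((L * K) ^ 2 : ℕ) : ℝ) := by
    apply Finset.sum_le_sum
    intro p hp
    have hp' := (mem_PS hN1 h2).1 hp
    apply one_div_le_one_div_of_le hX0
    exact_mod_cast hp'.2.1.le
  refine h4.trans ?_
  rw [Finset.sum_const, nsmul_eq_mul]
  have hK0 : (0 : ℝ) < K := by linarith
  calc ((PS ε L N).card : ℝ) * (1 / (((L * K) ^ 2 : ℕ) : ℝ))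
      ≤ ((2 + ε) * (K : ℝ) ^ 2) * (1 / (((L * K) ^ 2 : ℕ) : ℝ)) :=
        mul_le_mul_of_nonneg_right hcard (by positivity)
    _ = (2 + ε) / (L : ℝ) ^ 2 := by
        push_cast
        field_simp

open scoped Classical in
/-- Few elements of a large square are divisible by given primes. -/
theorem card_div_le (P : Finset G) (hP : ∀ p ∈ P, p ≠ 0) (a b : ℤ) (K : ℕ)
    (hK : ∀ p ∈ P, 2 * Nat.sqrt (nm p) ≤ K) :
    (((bx a b K).filter fun n => ∃ p ∈ P, p ∣ n).card : ℝ)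
      ≤ 8 * (K : ℝ) ^ 2 * ∑ p ∈ P, 1 / (nm p : ℝ) := by
  have h1 : ((bx a b K).filter fun n => ∃ p ∈ P, p ∣ n).card ≤ ∑ p ∈ P, cnt p (bx a b K) := by
    refine le_trans (Finset.card_le_card ?_) Finset.card_biUnion_le
    intro n hn
    rw [Finset.mem_filter] at hn
    obtain ⟨hnb, p, hp, hd⟩ := hn
    rw [Finset.mem_biUnion]
    exact ⟨p, hp, Finset.mem_filter.2 ⟨hnb, hd⟩⟩
  calc (((bx a b K).filter fun n => ∃ p ∈ P, p ∣ n).card : ℝ)
      ≤ ∑ p ∈ P, (cnt p (bx a b K) : ℝ) := by exact_mod_cast h1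
    _ ≤ ∑ p ∈ P, 8 * (K : ℝ) ^ 2 * (1 / (nm p : ℝ)) := by
        apply Finset.sum_le_sum
        intro p hp
        have h2 := upper p (hP p hp) a b K
        have h3 := rr_lower p (hP p hp)
        have h4 : (0 : ℝ) < nm p := by exact_mod_cast nm_pos (hP p hp)
        have h5 : (K + 2 * Nat.sqrt (nm p)) ^ 2 ≤ 4 * K ^ 2 := by
          have := hK p hp
          nlinarith
        have h6 : nm p * cnt p (bx a b K) ≤ 8 * K ^ 2 := by
          calc nm p * cnt p (bx a b K) ≤ (2 * rr p) * cnt p (bx a b K) :=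
                Nat.mul_le_mul_right _ h3
            _ = 2 * (rr p * cnt p (bx a b K)) := by ring
            _ ≤ 2 * (4 * K ^ 2) := Nat.mul_le_mul_left _ (h2.trans h5)
            _ = 8 * K ^ 2 := by ring
        rw [mul_one_div, le_div_iff₀ h4]
        have h7 : ((nm p * cnt p (bx a b K) : ℕ) : ℝ) ≤ ((8 * K ^ 2 : ℕ) : ℝ) := by
          exact_mod_cast h6
        push_cast at h7
        linarith
    _ = _ := by rw [Finset.mul_sum]

end Pool.Agent.X83.GI
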