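import Pool.Agent.X83.GI.D

open scoped BigOperators Topology

namespace Pool.Agent.X83.GI

open scoped Classical in
/-- The indicator of the integers free of the primes in `S`. -/
noncomputable def ff (S : Set G) : G → ℝ := fun n => if ∃ p ∈ S, p ∣ n then 0 else 1

theorem ff_mul (S : Set G) (hS : ∀ p ∈ S, Prime p) (m n : G) : ff S (m * n) = ff S m * ff S n := by
  unfold ff
  by_cases hm : ∃ p ∈ S, p ∣ m
  · obtain ⟨p, hp, hd⟩ := hm
    rw [if_pos ⟨p, hp, hd.mul_right n⟩, if_pos ⟨p, hp, hd⟩, zero_mul]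
  · by_cases hn : ∃ p ∈ S, p ∣ n
    · obtain ⟨p, hp, hd⟩ := hn
      rw [if_pos ⟨p, hp, hd.mul_left m⟩, if_pos (c := ∃ p ∈ S, p ∣ n) ⟨p, hp, hd⟩, mul_zero]
    · rw [if_neg hm, if_neg hn, if_neg, one_mul]
      rintro ⟨p, hp, hd⟩
      rcases (hS p hp).dvd_or_dvd hd with h | h
      · exact hm ⟨p, hp, h⟩
      · exact hn ⟨p, hp, h⟩

theorem ff_nonneg (S : Set G) (n : G) : 0 ≤ ff S n := by
  unfold ff; split_ifs <;> norm_num

theorem ff_le (S : Set G) (n : G) : ff S n ≤ 1 := by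
  unfold ff; split_ifs <;> norm_num

/-- A bound for all norms occurring in the first squares. -/
noncomputable def DB (ε : ℝ) (N : ℕ) : ℕ :=
  ∑ i ∈ Finset.range (N + 1), ∑ n ∈ shiftedSquare ε i, nm n

theorem DB_mono (ε : ℝ) {M N : ℕ} (h : M ≤ N) : DB ε M ≤ DB ε N := by
  unfold DB
  apply Finset.sum_le_sum_of_subset
  exact Finset.range_subset_range.2 (by omega)

theorem le_DB (ε : ℝ) (N : ℕ) {n : G} (hn : n ∈ shiftedSquare ε N) : nm n ≤ DB ε N := by
  unfold DB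
  calc nm n ≤ ∑ n ∈ shiftedSquare ε N, nm n :=
        Finset.single_le_sum (f := fun n => nm n) (fun _ _ => Nat.zero_le _) hn
    _ ≤ _ := Finset.single_le_sum (f := fun i => ∑ n ∈ shiftedSquare ε i, nm n)
        (fun _ _ => Nat.zero_le _) (Finset.mem_range.2 (Nat.lt_succ_self N))

/-- The sequence of scales: even-type scales. -/
noncomputable def NS (ε : ℝ) (T : ℕ → ℕ) : ℕ → ℕ
  | 0 => T 0
  | k + 1 => max (T (k + 1))
      (DB ε (DB ε (NS ε T k) + NS ε T k + 1) + (DB ε (NS ε T k) + NS ε T k + 1) + 1)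

/-- The intermediate scales. -/
noncomputable def NT (ε : ℝ) (T : ℕ → ℕ) (k : ℕ) : ℕ := DB ε (NS ε T k) + NS ε T k + 1

theorem NS_succ (ε : ℝ) (T : ℕ → ℕ) (k : ℕ) :
    NS ε T (k + 1) = max (T (k + 1)) (DB ε (NT ε T k) + NT ε T k + 1) := rfl

theorem T_le_NS (ε : ℝ) (T : ℕ → ℕ) (k : ℕ) : T k ≤ NS ε T k := by
  cases k with
  | zero => exact le_rfl
  | succ k => rw [NS_succ]; exact le_max_left _ _

theorem NS_lt_NT (ε : ℝ) (T : ℕ → ℕ) (k : ℕ) : NS ε T k < NT ε T k := by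
  unfold NT; omega

theorem NT_lt_NS (ε : ℝ) (T : ℕ → ℕ) (k : ℕ) : NT ε T k < NS ε T (k + 1) := by
  rw [NS_succ]
  exact lt_of_lt_of_le (by omega) (le_max_right _ _)

theorem NS_strictMono (ε : ℝ) (T : ℕ → ℕ) : StrictMono (NS ε T) :=
  strictMono_nat_of_lt_succ fun k => (NS_lt_NT ε T k).trans (NT_lt_NS ε T k)

theorem NT_strictMono (ε : ℝ) (T : ℕ → ℕ) : StrictMono (NT ε T) :=
  strictMono_nat_of_lt_succ fun k => (NT_lt_NS ε T k).trans (NS_lt_NT ε T (k + 1))

theorem DB_NS_lt (ε : ℝ) (T : ℕ → ℕ) {j k : ℕ} (h : j ≤ k) : DB ε (NS ε T j) < NT ε T k := by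
  calc DB ε (NS ε T j) ≤ DB ε (NS ε T k) := DB_mono ε ((NS_strictMono ε T).monotone h)
    _ < NT ε T k := by unfold NT; omega

theorem DB_NT_lt (ε : ℝ) (T : ℕ → ℕ) {j k : ℕ} (h : k < j) : DB ε (NT ε T k) < NS ε T j := by
  calc DB ε (NT ε T k) < NS ε T (k + 1) := by
        rw [NS_succ]
        exact lt_of_lt_of_le (by omega) (le_max_right _ _)
    _ ≤ NS ε T j := (NS_strictMono ε T).monotone h

theorem sum_biUnion_le' [DecidableEq G] (s : Finset ℕ) (t : ℕ → Finset G) (F : G → ℝ)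
    (hF : ∀ x, 0 ≤ F x) : ∑ x ∈ s.biUnion t, F x ≤ ∑ j ∈ s, ∑ x ∈ t j, F x := by
  induction s using Finset.induction_on with
  | empty => simp
  | insert a s ha ih =>
    rw [Finset.biUnion_insert, Finset.sum_insert ha]
    have h1 := Finset.sum_union_inter (f := F) (s₁ := t a) (s₂ := s.biUnion t)
    have h2 : 0 ≤ ∑ x ∈ t a ∩ s.biUnion t, F x := Finset.sum_nonneg fun x _ => hF x
    linarith

theorem main (ε : ℝ) (hε : 0 < ε) : ∃ f : G → ℝ, CompletelyMultiplicative f ∧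
    BoundedOnNonzero f ∧
    ¬ ∃ ℓ : ℝ, Filter.Tendsto (fun N : ℕ => average f (shiftedSquare ε N)) Filter.atTop (𝓝 ℓ) := by
  classical
  set c : ℝ := (2 + ε) / (2 + 2 * ε) with hc
  have hc1 : c < 1 := by
    rw [hc, div_lt_one (by linarith)]; linarith
  set η : ℝ := (1 - c) / 2 with hη
  have hη0 : 0 < η := by rw [hη]; linarith
  have hcη : c < 1 - η := by rw [hη]; linarith
  -- the parameter `L0`
  obtain ⟨L0, hL0⟩ := exists_nat_gt (11 * (2 + ε) / η + 1)
  have hL01 : (1 : ℝ) ≤ L0 := by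
    have : 0 ≤ 11 * (2 + ε) / η := by positivity
    linarith
  have hL0n : 1 ≤ L0 := by exact_mod_cast hL01
  have hL0b : 11 * (2 + ε) ≤ η * (L0 : ℝ) ^ 2 := by
    have h1 : 11 * (2 + ε) / η ≤ L0 := by linarith
    rw [div_le_iff₀ hη0] at h1
    have h2 : (L0 : ℝ) * η ≤ η * (L0 : ℝ) ^ 2 := by nlinarith
    linarith
  set L : ℕ → ℕ := fun k => 2 ^ k * L0 with hL
  have hLk : ∀ k, 1 ≤ L k := fun k => Nat.mul_pos (by positivity) hL0n
  -- thresholds
  have hT : ∀ k : ℕ, ∃ T : ℕ, ∀ N : ℕ, T ≤ N →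
      (((((shiftedSquare ε N).filter (Sm ((L k * (2 * N - 1)) ^ 2))).card : ℕ) : ℝ)
        ≤ c * ((shiftedSquare ε N).card : ℝ)) ∧
      2 * (N : ℝ) ≤ (N : ℝ) ^ (1 + ε) ∧ 3 ≤ N := by
    intro k
    have h := (eventually_few ε hε (L k) (hLk k)).and
      ((eventually_two ε hε).and (Filter.eventually_ge_atTop 3))
    obtain ⟨T, hT⟩ := Filter.eventually_atTop.1 h
    exact ⟨T, fun N hN => hT N hN⟩
  choose T hT using hT
  -- `NS` at index `k` is above `T 0` as well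
  have hT0 : ∀ k, T 0 ≤ NS ε T k := fun k =>
    le_trans (T_le_NS ε T 0) ((NS_strictMono ε T).monotone (Nat.zero_le k))
  have hNS2 : ∀ k, 2 * ((NS ε T k : ℕ) : ℝ) ≤ ((NS ε T k : ℕ) : ℝ) ^ (1 + ε) := fun k =>
    (hT k _ (T_le_NS ε T k)).2.1
  have hNS3 : ∀ k, 3 ≤ NS ε T k := fun k => (hT k _ (T_le_NS ε T k)).2.2
  have hNT2 : ∀ k, 2 * ((NT ε T k : ℕ) : ℝ) ≤ ((NT ε T k : ℕ) : ℝ) ^ (1 + ε) := fun k =>
    (hT 0 _ ((hT0 k).trans (NS_lt_NT ε T k).le)).2.1
  have hNT3 : ∀ k, 3 ≤ NT ε T k := fun k => (hNS3 k).trans (NS_lt_NT ε T k).le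
  -- the set of primes
  set S : Set G := {p | ∃ k, p ∈ PS ε (L k) (NS ε T k)} with hS
  have hmem : ∀ k p, p ∈ PS ε (L k) (NS ε T k) ↔ NP p ∧ (L k * (2 * NS ε T k - 1)) ^ 2 < nm p ∧
      ∃ n ∈ shiftedSquare ε (NS ε T k), p ∣ n := fun k p =>
    mem_PS (by have := hNS3 k; omega) (hNS2 k)
  have hSp : ∀ p ∈ S, Prime p := by
    rintro p ⟨k, hk⟩
    exact ((hmem k p).1 hk).1.1
  refine ⟨ff S, fun m n _ _ => ff_mul S hSp m n, ⟨1, fun n _ => ?_⟩, ?_⟩
  · rw [abs_of_nonneg (ff_nonneg S n)]; exact ff_le S n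
  rintro ⟨ℓ, hℓ⟩
  -- averages along `NS`
  have hup : ∀ k, average (ff S) (shiftedSquare ε (NS ε T k)) ≤ c := by
    intro k
    have h3 := hNS3 k
    have hcard : (0 : ℝ) < ((shiftedSquare ε (NS ε T k)).card : ℝ) := by
      rw [card_square ε _ (by omega)]
      have : 0 < (2 * NS ε T k - 1) ^ 2 := Nat.pow_pos (by omega)
      exact_mod_cast this
    unfold average
    rw [div_le_iff₀ hcard]
    refine le_trans ?_ (hT k _ (T_le_NS ε T k)).1
    rw [Finset.card_filter, Nat.cast_sum]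
    apply Finset.sum_le_sum
    intro n hn
    by_cases hsm : Sm ((L k * (2 * NS ε T k - 1)) ^ 2) n
    · rw [if_pos hsm]; push_cast; exact ff_le S n
    · rw [if_neg hsm]
      unfold Sm at hsm
      push Not at hsm
      obtain ⟨p, hp, hd, hlt⟩ := hsm
      have : ff S n = 0 := by
        unfold ff
        rw [if_pos]
        exact ⟨p, ⟨k, (hmem k p).2 ⟨hp, hlt, n, hn, hd⟩⟩, hd⟩
      rw [this]; simp
  -- averages along `NT`
  have hlow : ∀ k, 1 - η ≤ average (ff S) (shiftedSquare ε (NT ε T k)) := by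
    intro k
    have h3 := hNT3 k
    set N := NT ε T k with hN
    have hN1 : 1 ≤ N := by omega
    have hcard : (0 : ℝ) < ((shiftedSquare ε N).card : ℝ) := by
      rw [card_square ε _ (by omega)]
      have : 0 < (2 * N - 1) ^ 2 := Nat.pow_pos (by omega)
      exact_mod_cast this
    set P : Finset G := (Finset.range (k + 1)).biUnion fun j => PS ε (L j) (NS ε T j) with hP
    have hPne : ∀ p ∈ P, p ≠ 0 := by
      intro p hp
      rw [hP, Finset.mem_biUnion] at hp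
      obtain ⟨j, _, hj⟩ := hp
      exact ((hmem j p).1 hj).1.1.ne_zero
    have hPle : ∀ p ∈ P, 2 * Nat.sqrt (nm p) ≤ 2 * N - 1 := by
      intro p hp
      rw [hP, Finset.mem_biUnion] at hp
      obtain ⟨j, hjk, hj⟩ := hp
      obtain ⟨_, _, n, hn, hd⟩ := (hmem j p).1 hj
      have hn0 := square_ne (by have := hNS3 j; omega) (hNS2 j) hn
      have h4 : nm p ≤ nm n := nm_le_of_dvd hd hn0
      have h5 := le_DB ε _ hn
      have h6 := DB_NS_lt ε T (Nat.lt_succ_iff.1 (Finset.mem_range.1 hjk))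
      have h7 := Nat.sqrt_le_self (nm p)
      rw [← hN] at h6
      omega
    have hbad := card_div_le P hPne (MM ε N - N + 1) (-N + 1) (2 * N - 1) hPle
    rw [← square_eq ε N hN1] at hbad
    -- the sum over the primes
    have hsum : ∑ p ∈ P, 1 / (nm p : ℝ) ≤ (4 / 3) * ((2 + ε) / (L0 : ℝ) ^ 2) := by
      have e1 : ∑ p ∈ P, 1 / (nm p : ℝ)
          ≤ ∑ j ∈ Finset.range (k + 1), ∑ p ∈ PS ε (L j) (NS ε T j), 1 / (nm p : ℝ) := by
        rw [hP]
        exact sum_biUnion_le' _ _ _ (fun x => by positivity)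
      refine e1.trans ?_
      have e2 : ∀ j ∈ Finset.range (k + 1), ∑ p ∈ PS ε (L j) (NS ε T j), 1 / (nm p : ℝ)
          ≤ ((2 + ε) / (L0 : ℝ) ^ 2) * (1 / 4 : ℝ) ^ j := by
        intro j _
        refine (sum_inv_PS ε hε (L j) (NS ε T j) (hLk j) (hNS3 j) (hNS2 j)).trans (le_of_eq ?_)
        rw [hL]
        push_cast
        have : (L0 : ℝ) ≠ 0 := by positivity
        rw [mul_pow, ← pow_mul, mul_comm j 2, pow_mul, one_div, inv_pow]
        field_simp
        norm_num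
      refine (Finset.sum_le_sum e2).trans ?_
      rw [← Finset.mul_sum, mul_comm (4 / 3 : ℝ)]
      apply mul_le_mul_of_nonneg_left _ (by positivity)
      rw [geom_sum_eq (by norm_num)]
      have : (0 : ℝ) ≤ (1 / 4) ^ (k + 1) := by positivity
      rw [div_le_iff_of_neg (by norm_num)]
      linarith
    -- elements with `f = 0`
    have hsub : (shiftedSquare ε N).filter (fun n => ff S n ≠ 1) ⊆
        (shiftedSquare ε N).filter (fun n => ∃ p ∈ P, p ∣ n) := by
      intro n hn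
      rw [Finset.mem_filter] at hn ⊢
      refine ⟨hn.1, ?_⟩
      have h4 : ∃ p ∈ S, p ∣ n := by
        by_contra hno
        apply hn.2
        unfold ff
        rw [if_neg hno]
      obtain ⟨p, ⟨j, hj⟩, hd⟩ := h4
      refine ⟨p, ?_, hd⟩
      rw [hP, Finset.mem_biUnion]
      refine ⟨j, ?_, hj⟩
      rw [Finset.mem_range, Nat.lt_succ_iff]
      by_contra hjk
      push Not at hjk
      have hn0 := square_ne hN1 (hNT2 k) hn.1
      have h5 : nm p ≤ nm n := nm_le_of_dvd hd hn0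
      have h6 := le_DB ε _ hn.1
      have h7 := DB_NT_lt ε T hjk
      rw [← hN] at h7
      have h8 := ((hmem j p).1 hj).2.1
      have h9 : NS ε T j ≤ (L j * (2 * NS ε T j - 1)) ^ 2 := by
        have := hNS3 j
        have a1 : NS ε T j ≤ 2 * NS ε T j - 1 := by omega
        have a2 : 2 * NS ε T j - 1 ≤ L j * (2 * NS ε T j - 1) :=
          Nat.le_mul_of_pos_left _ (hLk j)
        have a3 : L j * (2 * NS ε T j - 1) ≤ (L j * (2 * NS ε T j - 1)) ^ 2 :=
          Nat.le_self_pow (by norm_num) _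
        omega
      omega
    have hbad2 : ((((shiftedSquare ε N).filter (fun n => ff S n ≠ 1)).card : ℕ) : ℝ)
        ≤ η * ((shiftedSquare ε N).card : ℝ) := by
      have e1 : ((((shiftedSquare ε N).filter (fun n => ff S n ≠ 1)).card : ℕ) : ℝ)
          ≤ ((((shiftedSquare ε N).filter (fun n => ∃ p ∈ P, p ∣ n)).card : ℕ) : ℝ) := by
        exact_mod_cast Finset.card_le_card hsub
      refine e1.trans (hbad.trans ?_)
      rw [card_square ε N hN1]
      have hL0p : (0 : ℝ) < (L0 : ℝ) ^ 2 := by positivity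
      have e2 : 8 * ∑ p ∈ P, 1 / (nm p : ℝ) ≤ η := by
        calc 8 * ∑ p ∈ P, 1 / (nm p : ℝ) ≤ 8 * ((4 / 3) * ((2 + ε) / (L0 : ℝ) ^ 2)) := by linarith
          _ = (32 / 3) * (2 + ε) / (L0 : ℝ) ^ 2 := by ring
          _ ≤ η := by
            rw [div_le_iff₀ hL0p]
            linarith
      have e3 : 8 * ((2 * N - 1 : ℕ) : ℝ) ^ 2 * ∑ p ∈ P, 1 / (nm p : ℝ)
          = (8 * ∑ p ∈ P, 1 / (nm p : ℝ)) * (((2 * N - 1) ^ 2 : ℕ) : ℝ) := by
        push_cast; ring
      rw [e3]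
      exact mul_le_mul_of_nonneg_right e2 (Nat.cast_nonneg _)
    unfold average
    rw [le_div_iff₀ hcard]
    have h4 : ∀ n ∈ shiftedSquare ε N, (1 : ℝ) - (if ff S n ≠ 1 then (1 : ℝ) else 0) ≤ ff S n := by
      intro n _
      by_cases h : ff S n ≠ 1
      · rw [if_pos h]; simpa using ff_nonneg S n
      · rw [if_neg h]
        push Not at h
        rw [h]; simp
    have h5 := Finset.sum_le_sum h4
    rw [Finset.sum_sub_distrib, Finset.sum_const, nsmul_eq_mul, mul_one] at h5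
    have h6 : ∑ n ∈ shiftedSquare ε N, (if ff S n ≠ 1 then (1 : ℝ) else 0)
        = ((((shiftedSquare ε N).filter (fun n => ff S n ≠ 1)).card : ℕ) : ℝ) := by
      rw [Finset.card_filter, Nat.cast_sum]
      apply Finset.sum_congr rfl
      intro n _
      split_ifs <;> simp
    rw [h6] at h5
    linarith
  have h1 : ℓ ≤ c := le_of_tendsto (hℓ.comp (NS_strictMono ε T).tendsto_atTop)
    (Filter.Eventually.of_forall hup)
  have h2 : 1 - η ≤ ℓ := ge_of_tendsto (hℓ.comp (NT_strictMono ε T).tendsto_atTop)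
    (Filter.Eventually.of_forall hlow)
  linarith

end Pool.Agent.X83.GI
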